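import Pool.Agent.SRE.EDefs

/-!
# SRE EAff: affine changes of the variable
-/

set_option autoImplicit false

open Topology Filter Metric

namespace Pool.Agent.SRE

open Pool.Agent.H36.BP (Sub)

variable {E : Type} [NormedAddCommGroup E] [NormedSpace ℂ E] {𝒰 : Ultrafilter ℕ} {P : Par} {ℓ : E →L[ℂ] ℂ} {X : ℕ → Dat E}

/-- MODULE EAff (2) -/
theorem s_resc {Y : Dat E} (c : ℂ) {r : ℝ} {βW βa βd : ℂ} (hW : βW ≠ 0) (ha : βa ≠ 0) (u : ℂ) :
    (Y.resc P c r βW βa βd).s P.D u = Y.s P.D (c + r * u) := by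
  change Y.η * βW ^ P.D / βa * (βa * Y.a (c + r * u)) / (βW * Y.W (c + r * u)) ^ P.D =
    Y.η * Y.a (c + r * u) / Y.W (c + r * u) ^ P.D
  have h1 : βW ^ P.D ≠ 0 := pow_ne_zero _ hW
  rw [mul_pow]
  have h2 : Y.η * βW ^ P.D / βa * (βa * Y.a (c + r * u)) = βW ^ P.D * (Y.η * Y.a (c + r * u)) := by
    field_simp
  rw [h2, mul_div_mul_left _ _ h1]

private theorem EAff_an (c : ℂ) (r : ℝ) : Differentiable ℂ fun u : ℂ => c + r * u := by fun_prop

private theorem EAff_cont (c : ℂ) (r : ℝ) : Continuous fun u : ℂ => c + r * u := (EAff_an c r).continuous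

private theorem EAff_deriv (f : ℂ → ℂ) (c : ℂ) (r : ℝ) (u : ℂ) :
    deriv (fun w : ℂ => f (c + r * w)) u = r * deriv f (c + r * u) := by
  have h1 := deriv_comp_mul_left (r : ℂ) (fun y => f (c + y)) u
  rw [deriv_comp_const_add, smul_eq_mul] at h1
  exact h1

/-- MODULE EAff (1): the conditions are invariant under affine changes of the variable. -/
theorem ok_resc {Y : Dat E} (h : Y.Ok P ℓ) (c : ℂ) {r : ℝ} (hr : 0 < r) {βW βa βd : ℂ} (hW : βW ≠ 0) (ha : βa ≠ 0) (hd : βd ≠ 0) :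
    (Y.resc P c r βW βa βd).Ok P ℓ := by
  have hrc : (r : ℂ) ≠ 0 := by exact_mod_cast hr.ne'
  have hs : (Y.resc P c r βW βa βd).s P.D = fun u => Y.s P.D (c + r * u) := funext fun u => s_resc c hW ha u
  have hWn : 0 < ‖βW‖ := norm_pos_iff.2 hW
  have hlam : ∀ z : ℂ, (Y.lam / r * ‖βW‖ ^ P.c₂) * ‖βW * Y.W (c + r * z)‖ ^ (-P.c₂) =
      Y.lam / r * ‖Y.W (c + r * z)‖ ^ (-P.c₂) := by
    intro z
    rw [norm_mul, Real.mul_rpow (norm_nonneg _) (norm_nonneg _)]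
    have h1 : ‖βW‖ ^ P.c₂ * ‖βW‖ ^ (-P.c₂) = 1 := by rw [← Real.rpow_add hWn, add_neg_cancel, Real.rpow_zero]
    calc Y.lam / r * ‖βW‖ ^ P.c₂ * (‖βW‖ ^ (-P.c₂) * ‖Y.W (c + r * z)‖ ^ (-P.c₂))
        = Y.lam / r * (‖βW‖ ^ P.c₂ * ‖βW‖ ^ (-P.c₂)) * ‖Y.W (c + r * z)‖ ^ (-P.c₂) := by ring
      _ = _ := by rw [h1, mul_one]
  have hdt : ∀ u, ‖deriv (Y.resc P c r βW βa βd).t u‖ = r * ‖deriv Y.t (c + r * u)‖ := by
    intro u
    change ‖deriv (fun w : ℂ => Y.t (c + r * w)) u‖ = _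
    rw [EAff_deriv, norm_mul, Complex.norm_real, Real.norm_eq_abs, abs_of_pos hr]
  have hds : ∀ u, ‖deriv ((Y.resc P c r βW βa βd).s P.D) u‖ = r * ‖deriv (Y.s P.D) (c + r * u)‖ := by
    intro u
    rw [hs, EAff_deriv, norm_mul, Complex.norm_real, Real.norm_eq_abs, abs_of_pos hr]
  refine
    { W_diff := (h.W_diff.comp (EAff_an c r)).const_mul βW
      a_diff := (h.a_diff.comp (EAff_an c r)).const_mul βa
      d_diff := (h.d_diff.comp (EAff_an c r)).const_mul βd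
      b_diff := (h.b_diff.comp (EAff_an c r)).const_smul βd
      η_ne := div_ne_zero (mul_ne_zero h.η_ne (pow_ne_zero _ hW)) ha
      lam_pos := mul_pos (div_pos h.lam_pos hr) (Real.rpow_pos_of_pos hWn _)
      O_open := h.O_open.preimage (EAff_cont c r)
      t_diff := h.t_diff.comp (EAff_an c r).differentiableOn fun u hu => hu
      O_W := fun z hz => mul_ne_zero hW (h.O_W _ hz)
      O_s := fun z hz => by rw [hs]; exact h.O_s _ hz
      O_t := fun z hz => h.O_t _ hz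
      O_td := ?_
      O_b := ?_
      O_mem := ?_
      O_iso := ?_
      U_nonneg := fun z => h.U_nonneg _
      U_usc := ?_
      lower := ?_
      upper := ?_ }
  · intro z hz
    change ℓ (βd • Y.b (c + r * z)) = Y.t (c + r * z) * (βd * Y.d (c + r * z))
    rw [map_smul, h.O_td _ hz, smul_eq_mul]
    ring
  · intro z hz
    rw [hs]
    change ‖βd • Y.b (c + r * z)‖ ≤ P.C * (‖Y.s P.D (c + r * z)‖ ^ P.θ + ‖Y.t (c + r * z)‖) * ‖βd * Y.d (c + r * z)‖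
    rw [norm_smul, norm_mul]
    calc ‖βd‖ * ‖Y.b (c + r * z)‖ ≤
        ‖βd‖ * (P.C * (‖Y.s P.D (c + r * z)‖ ^ P.θ + ‖Y.t (c + r * z)‖) * ‖Y.d (c + r * z)‖) :=
          mul_le_mul_of_nonneg_left (h.O_b _ hz) (norm_nonneg _)
      _ = _ := by ring
  · intro z h1 h2 h3 h4
    rw [hs] at h3
    change βW * Y.W (c + r * z) ≠ 0 at h1
    change βd * Y.d (c + r * z) ≠ 0 at h2
    change ‖βd • Y.b (c + r * z)‖ < P.δ₀ * ‖βd * Y.d (c + r * z)‖ at h4
    rw [norm_smul, norm_mul] at h4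
    refine h.O_mem _ (right_ne_zero_of_mul h1) (right_ne_zero_of_mul h2) h3 ?_
    have h5 : 0 < ‖βd‖ := norm_pos_iff.2 hd
    refine lt_of_mul_lt_mul_left (a := ‖βd‖) (h4.trans_le (le_of_eq (by ring))) h5.le
  · intro z hz
    refine h.O_iso _ ?_
    -- the inverse of the affine map
    have h1 : Tendsto (fun y : ℂ => (y - c) / r) (𝓝[≠] (c + r * z)) (𝓝[≠] z) := by
      have h2 : Tendsto (fun y : ℂ => (y - c) / r) (𝓝 (c + r * z)) (𝓝 z) := by
        have h3 : Continuous fun y : ℂ => (y - c) / r := by fun_prop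
        have h4 : (c + r * z - c) / r = z := by field_simp; ring
        exact h3.tendsto' _ _ h4
      refine tendsto_nhdsWithin_iff.2 ⟨h2.mono_left nhdsWithin_le_nhds, ?_⟩
      filter_upwards [self_mem_nhdsWithin] with y hy hyz
      apply hy
      have h5 : (y - c) / r = z := hyz
      rw [div_eq_iff hrc] at h5
      change y = c + r * z
      rw [mul_comm, ← h5]
      ring
    filter_upwards [h1.eventually hz] with y hy
    change c + r * ((y - c) / r) ∈ Y.O at hy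
    have h6 : c + r * ((y - c) / r) = y := by field_simp; ring
    rwa [h6] at hy
  · have h1 : UpperSemicontinuous (Y.U ∘ fun u : ℂ => c + r * u) := UpperSemicontinuous.comp h.U_usc (EAff_cont c r)
    exact h1
  · intro z hz haz
    rw [hdt, hs]
    change P.c * (Y.lam / r * ‖βW‖ ^ P.c₂) * (‖Y.s P.D (c + r * z)‖ ^ P.A * (r * ‖deriv Y.t (c + r * z)‖)) *
      ‖βW * Y.W (c + r * z)‖ ^ (-P.c₂) ≤ Y.U (c + r * z)
    refine le_trans (le_of_eq ?_) (h.lower _ hz (right_ne_zero_of_mul haz))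
    calc P.c * (Y.lam / r * ‖βW‖ ^ P.c₂) * (‖Y.s P.D (c + r * z)‖ ^ P.A * (r * ‖deriv Y.t (c + r * z)‖)) *
      ‖βW * Y.W (c + r * z)‖ ^ (-P.c₂) = P.c * (‖Y.s P.D (c + r * z)‖ ^ P.A * (r * ‖deriv Y.t (c + r * z)‖)) *
        ((Y.lam / r * ‖βW‖ ^ P.c₂) * ‖βW * Y.W (c + r * z)‖ ^ (-P.c₂)) := by ring
      _ = _ := by
        rw [hlam]
        field_simp
  · intro z hz haz
    rw [hdt, hds, hs]
    change Y.U (c + r * z) ≤ P.C * (Y.lam / r * ‖βW‖ ^ P.c₂) * (‖Y.s P.D (c + r * z)‖ ^ P.A * (r * ‖deriv Y.t (c + r * z)‖) +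
      ‖Y.s P.D (c + r * z)‖ ^ P.B * (r * ‖deriv (Y.s P.D) (c + r * z)‖)) * ‖βW * Y.W (c + r * z)‖ ^ (-P.c₂)
    refine le_trans (h.upper _ hz (right_ne_zero_of_mul haz)) (le_of_eq (Eq.symm ?_))
    calc P.C * (Y.lam / r * ‖βW‖ ^ P.c₂) * (‖Y.s P.D (c + r * z)‖ ^ P.A * (r * ‖deriv Y.t (c + r * z)‖) +
      ‖Y.s P.D (c + r * z)‖ ^ P.B * (r * ‖deriv (Y.s P.D) (c + r * z)‖)) * ‖βW * Y.W (c + r * z)‖ ^ (-P.c₂)
        = P.C * (‖Y.s P.D (c + r * z)‖ ^ P.A * (r * ‖deriv Y.t (c + r * z)‖) +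
      ‖Y.s P.D (c + r * z)‖ ^ P.B * (r * ‖deriv (Y.s P.D) (c + r * z)‖)) *
        ((Y.lam / r * ‖βW‖ ^ P.c₂) * ‖βW * Y.W (c + r * z)‖ ^ (-P.c₂)) := by ring
      _ = _ := by
        rw [hlam]
        field_simp

/-- MODULE EAff (3) -/
theorem nullCond_resc (h : NullCond 𝒰 P X) {c : ℕ → ℂ} {r : ℕ → ℝ} (hr0 : ∀ n, 0 < r n) (hr : Tendsto r 𝒰 (𝓝 0)) (hc : Tendsto c 𝒰 (𝓝 0))
    {βW βa βd : ℕ → ℂ} (hW : ∀ n, βW n ≠ 0) (ha : ∀ n, βa n ≠ 0) :
    NullCond 𝒰 P (fun n => (X n).resc P (c n) (r n) (βW n) (βa n) (βd n)) := by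
  intro c' r' σ τ hr0' hr' hc' hK hσ hτ
  have e : ∀ (n : ℕ) (u : ℂ), c n + r n * (c' n + r' n * u) = (c n + r n * c' n) + ((r n * r' n : ℝ) : ℂ) * u := by
    intro n u
    push_cast
    ring
  refine h (fun n => c n + r n * c' n) (fun n => r n * r' n) σ τ (fun n => mul_pos (hr0 n) (hr0' n)) ?_ ?_ ?_ ?_ ?_
  · have h1 := hr.mul hr'
    rwa [mul_zero] at h1
  · have h1 : Tendsto (fun n => ((r n : ℝ) : ℂ)) 𝒰 (𝓝 0) := (Complex.continuous_ofReal.tendsto' 0 0 (by simp)).comp hr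
    have h2 := hc.add (h1.mul hc')
    rwa [mul_zero, add_zero] at h2
  · intro K hK1 hK2
    filter_upwards [hK K hK1 hK2] with n hn u hu
    have h1 : c n + r n * (c' n + r' n * u) ∈ (X n).O := hn u hu
    rwa [e] at h1
  · have h1 : (fun n u => (X n).s P.D (c n + r n * c' n + ((r n * r' n : ℝ) : ℂ) * u)) =
        fun n u => ((X n).resc P (c n) (r n) (βW n) (βa n) (βd n)).s P.D (c' n + r' n * u) := by
      funext n u
      rw [s_resc _ (hW n) (ha n), e]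
    rw [h1]
    exact hσ
  · have h1 : (fun n u => (X n).t (c n + r n * c' n + ((r n * r' n : ℝ) : ℂ) * u)) =
        fun n u => ((X n).resc P (c n) (r n) (βW n) (βa n) (βd n)).t (c' n + r' n * u) := by
      funext n u
      change _ = (X n).t (c n + r n * (c' n + r' n * u))
      rw [e]
    rw [h1]
    exact hτ

/-- MODULE EAff (4): `Sub` under an affine change of the variable -/
theorem sub_affine {u : ℂ → ℝ} {c z : ℂ} {r κ : ℝ} (hr : 0 < r) (h : Sub u (c + r * z) κ) : Sub (fun w => u (c + r * w)) z (r ^ 2 * κ) := by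
  refine ⟨h.1, fun c' hc' => ?_⟩
  have hr2 : 0 < r ^ 2 := by positivity
  obtain ⟨g, hg, hg0, hge⟩ := h.2 (c' / r ^ 2) (by rw [div_lt_iff₀ hr2]; linarith)
  refine ⟨fun w => g (c + r * w), ?_, hg0, ?_⟩
  · exact AnalyticAt.fun_comp hg ((EAff_an c r).analyticAt z)
  · have h1 : Tendsto (fun w : ℂ => c + r * w) (𝓝 z) (𝓝 (c + r * z)) := (EAff_cont c r).tendsto z
    filter_upwards [h1.eventually hge] with w hw
    have h2 : c' / r ^ 2 * ‖c + r * w - (c + r * z)‖ ^ 2 = c' * ‖w - z‖ ^ 2 := by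
      have h3 : c + r * w - (c + r * z) = r * (w - z) := by ring
      rw [h3, norm_mul, Complex.norm_real, Real.norm_eq_abs, abs_of_pos hr]
      field_simp
    rw [h2] at hw
    exact hw

end Pool.Agent.SRE
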