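import Pool.Agent.H36.BP.MaxP
import Pool.Agent.H36.BP.SubA
import Pool.Agent.H36.BP.SubB

/-!
# SR EDefs: the interface of Lemma (E) (no bubbles), one complex variable only

`𝒰` is an ultrafilter on `ℕ`.  `W n` (the linear form `L(F_n)`), `a n` (a form which vanishes on `T`, near the point `s = 0`), `d n` and the
vector `b n` are entire functions, `s n = η n * a n / W n ^ D`, `t n = ℓ (b n) / d n`.  `O n` is the open set of the parameters where the curve is in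
the box around the point `x'`.  `U n` is the length of the derivative times `‖F_n‖^(-c₂)`.
-/

set_option autoImplicit false

open Topology Filter Metric

namespace Pool.Agent.SRE

open Pool.Agent.H36.BP (Sub)

/-- the constants: `D` the degree of the form `a`, `A`, `B` the exponents of the tangential and of the normal piece, `c₂` the exponent of the lift,
`θ` an exponent (`1` if `a` is a reduced equation), `δ` the size of the box, `δ₀` the size of a smaller box, `c`, `C` constants -/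
structure Par where
  D : ℕ
  A : ℝ
  B : ℝ
  c₂ : ℝ
  θ : ℝ
  δ : ℝ
  δ₀ : ℝ
  c : ℝ
  C : ℝ

/-- the conditions on the constants -/
structure Par.Ok (P : Par) : Prop where
  A_pos : 0 < P.A
  AB : P.A < P.B + 1
  c₂_nonneg : 0 ≤ P.c₂
  θ_pos : 0 < P.θ
  δ_pos : 0 < P.δ
  δ₀_pos : 0 < P.δ₀
  c_pos : 0 < P.c
  C_pos : 0 < P.C

/-- the data at one parameter `n` -/
structure Dat (E : Type) where
  W : ℂ → ℂ
  a : ℂ → ℂ
  d : ℂ → ℂ
  b : ℂ → E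
  η : ℂ
  O : Set ℂ
  t : ℂ → ℂ
  lam : ℝ
  U : ℂ → ℝ

variable {E : Type} [NormedAddCommGroup E] [NormedSpace ℂ E]

/-- the function `s` -/
noncomputable def Dat.s (X : Dat E) (D : ℕ) (z : ℂ) : ℂ := X.η * X.a z / X.W z ^ D

/-- the conditions on the data at one parameter: they are invariant under affine changes of the variable -/
structure Dat.Ok (X : Dat E) (P : Par) (ℓ : E →L[ℂ] ℂ) : Prop where
  W_diff : Differentiable ℂ X.W
  a_diff : Differentiable ℂ X.a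
  d_diff : Differentiable ℂ X.d
  b_diff : Differentiable ℂ X.b
  η_ne : X.η ≠ 0
  lam_pos : 0 < X.lam
  O_open : IsOpen X.O
  t_diff : DifferentiableOn ℂ X.t X.O
  O_W : ∀ z ∈ X.O, X.W z ≠ 0
  O_s : ∀ z ∈ X.O, ‖X.s P.D z‖ ≤ P.δ
  O_t : ∀ z ∈ X.O, ‖X.t z‖ ≤ P.δ
  O_td : ∀ z ∈ X.O, ℓ (X.b z) = X.t z * X.d z
  O_b : ∀ z ∈ X.O, ‖X.b z‖ ≤ P.C * (‖X.s P.D z‖ ^ P.θ + ‖X.t z‖) * ‖X.d z‖
  /-- a point is in the box as soon as it is near the centre of the box -/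
  O_mem : ∀ z, X.W z ≠ 0 → X.d z ≠ 0 → ‖X.s P.D z‖ < P.δ₀ → ‖X.b z‖ < P.δ₀ * ‖X.d z‖ → z ∈ X.O
  /-- no isolated exit points -/
  O_iso : ∀ z, (∀ᶠ w in 𝓝[≠] z, w ∈ X.O) → z ∈ X.O
  U_nonneg : ∀ z, 0 ≤ X.U z
  U_usc : UpperSemicontinuous X.U
  lower : ∀ z ∈ X.O, X.a z ≠ 0 → P.c * X.lam * (‖X.s P.D z‖ ^ P.A * ‖deriv X.t z‖) * ‖X.W z‖ ^ (-P.c₂) ≤ X.U z
  upper : ∀ z ∈ X.O, X.a z ≠ 0 → X.U z ≤ P.C * X.lam * (‖X.s P.D z‖ ^ P.A * ‖deriv X.t z‖ + ‖X.s P.D z‖ ^ P.B * ‖deriv (X.s P.D) z‖) *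
    ‖X.W z‖ ^ (-P.c₂)

/-- affine change of the variable `z = c + r u`, with new normalisations `βW`, `βa`, `βd` of the forms -/
noncomputable def Dat.resc (X : Dat E) (P : Par) (c : ℂ) (r : ℝ) (βW βa βd : ℂ) : Dat E where
  W := fun u => βW * X.W (c + r * u)
  a := fun u => βa * X.a (c + r * u)
  d := fun u => βd * X.d (c + r * u)
  b := fun u => βd • X.b (c + r * u)
  η := X.η * βW ^ P.D / βa
  O := {u | c + r * u ∈ X.O}
  t := fun u => X.t (c + r * u)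
  lam := X.lam / r * ‖βW‖ ^ P.c₂
  U := fun u => X.U (c + r * u)

/-- the function `f n` converges locally uniformly on the unit ball to `z ^ m * g z`, `g 0 ≠ 0` -/
def LimOrd (𝒰 : Ultrafilter ℕ) (f : ℕ → ℂ → ℂ) (m : ℕ) : Prop :=
  ∃ g : ℂ → ℂ, DifferentiableOn ℂ g (ball 0 1) ∧ g 0 ≠ 0 ∧ TendstoLocallyUniformlyOn f (fun z => z ^ m * g z) 𝒰 (ball 0 1)

/-- the null condition: where the rescaled curves converge, outside a disc, and the limit is not constant, the limit of `s` is `0` -/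
def NullCond (𝒰 : Ultrafilter ℕ) (P : Par) (X : ℕ → Dat E) : Prop :=
  ∀ (c : ℕ → ℂ) (r : ℕ → ℝ) (σ τ : ℂ → ℂ), (∀ n, 0 < r n) → Tendsto r 𝒰 (𝓝 0) → Tendsto c 𝒰 (𝓝 0) →
    (∀ K : Set ℂ, IsCompact K → (∀ u ∈ K, 1 < ‖u‖) → ∀ᶠ n in (𝒰 : Filter ℕ), ∀ u ∈ K, c n + r n * u ∈ (X n).O) →
    TendstoLocallyUniformlyOn (fun n u => (X n).s P.D (c n + r n * u)) σ 𝒰 {u | 1 < ‖u‖} →
    TendstoLocallyUniformlyOn (fun n u => (X n).t (c n + r n * u)) τ 𝒰 {u | 1 < ‖u‖} →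
    (∀ u : ℂ, 1 < ‖u‖ → σ u = 0) ∨ ∃ σ₀ τ₀ : ℂ, ∀ u : ℂ, 1 < ‖u‖ → σ u = σ₀ ∧ τ u = τ₀

/-- A cluster: the curves converge off `0`, the limit of `(s, t)` at `0` is `(0, 0)`; `m`, `N`, `k` are the numbers of zeros of `W n`, `a n`, `d n` near `0`. -/
structure Clu (𝒰 : Ultrafilter ℕ) (P : Par) (ℓ : E →L[ℂ] ℂ) (X : ℕ → Dat E) (m N k : ℕ) : Prop where
  ok : ∀ n, (X n).Ok P ℓ
  W_lim : LimOrd 𝒰 (fun n => (X n).W) m
  a_lim : LimOrd 𝒰 (fun n => (X n).a) N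
  d_lim : LimOrd 𝒰 (fun n => (X n).d) k
  /-- the punctured ball is in the box -/
  neck : ∀ K : Set ℂ, IsCompact K → K ⊆ ball (0 : ℂ) 1 \ {0} → ∀ᶠ n in (𝒰 : Filter ℕ), K ⊆ (X n).O
  s_lim : ∃ S : ℂ → ℂ, DifferentiableOn ℂ S (ball 0 1) ∧ S 0 = 0 ∧ TendstoLocallyUniformlyOn (fun n => (X n).s P.D) S 𝒰 (ball 0 1 \ {0})
  t_lim : ∃ T : ℂ → ℂ, DifferentiableOn ℂ T (ball 0 1) ∧ T 0 = 0 ∧ TendstoLocallyUniformlyOn (fun n => (X n).t) T 𝒰 (ball 0 1 \ {0})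
  sub : ∀ᶠ n in (𝒰 : Filter ℕ), ∀ z ∈ ball (0 : ℂ) 1, 0 < (X n).U z → Sub (X n).U z (-P.C)
  null : NullCond 𝒰 P X

/-- there are exit points arbitrarily near `0` -/
def Exits (𝒰 : Ultrafilter ℕ) (X : ℕ → Dat E) (v : ℂ) : Prop :=
  ∀ r : ℝ, 0 < r → ∀ᶠ n in (𝒰 : Filter ℕ), ∃ z ∈ ball v r, z ∉ (X n).O

end Pool.Agent.SRE
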