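import Pool.Agent.SRE.EZoomD

/-!
# SRE EIndA: the induction of Lemma (E), with the statements of the other modules as hypotheses
-/

set_option autoImplicit false

open Topology Filter Metric

namespace Pool.Agent.SRE

variable {E : Type} [NormedAddCommGroup E] [NormedSpace ℂ E] {𝒰 : Ultrafilter ℕ} {P : Par} {ℓ : E →L[ℂ] ℂ}

theorem lemma_E_of (hP : P.Ok)
    (hzoom : ∀ (X : ℕ → Dat E) (m N k : ℕ), Clu 𝒰 P ℓ X m N k → Exits 𝒰 X 0 → ∃ c r τ, Zoom 𝒰 P X c r τ)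
    (htop : ∀ (X : ℕ → Dat E) (m N k : ℕ) (c : ℕ → ℂ) (r : ℕ → ℝ) (τ : ℂ → ℂ), Clu 𝒰 P ℓ X m N k → Zoom 𝒰 P X c r τ →
      (¬ ∃ τ₀ : ℂ, ∀ u : ℂ, 1 < ‖u‖ → τ u = τ₀) → 2 + P.c₂ * m ≤ P.A * ((N : ℝ) - P.D * m))
    (hgh : ∀ (X : ℕ → Dat E) (m N k : ℕ) (c : ℕ → ℂ) (r : ℕ → ℝ) (τ : ℂ → ℂ), Clu 𝒰 P ℓ X m N k → Zoom 𝒰 P X c r τ →
      (∀ u : ℂ, 1 < ‖u‖ → τ u = 0) →
      ∃ (V : Finset ℂ) (μ ν κ : ℂ → ℕ), 2 ≤ V.card ∧ (∀ v ∈ V, 1 ≤ μ v + κ v) ∧ ∑ v ∈ V, μ v = m ∧ ∑ v ∈ V, ν v ≤ N ∧ ∑ v ∈ V, κ v ≤ k ∧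
        ∀ v ∈ V, ∃ X' : ℕ → Dat E, Clu 𝒰 P ℓ X' (μ v) (ν v) (κ v) ∧ Exits 𝒰 X' 0) :
    ∀ (M : ℕ) (X : ℕ → Dat E) (m N k : ℕ), m + k = M → Clu 𝒰 P ℓ X m N k → Exits 𝒰 X 0 →
      2 + P.c₂ * m ≤ P.A * ((N : ℝ) - P.D * m) := by
  intro M
  induction M using Nat.strong_induction_on with
  | _ M ih =>
  intro X m N k hM h he
  obtain ⟨c, r, τ, hz⟩ := hzoom X m N k h he
  rcases hz.alt with h0 | hne
  · obtain ⟨V, μ, ν, κ, hV, h1, hμ, hν, hκ, hch⟩ := hgh X m N k c r τ h hz h0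
    have hlt : ∀ v ∈ V, μ v + κ v < M := by
      intro v hv
      obtain ⟨w, hw, hwv⟩ : ∃ w ∈ V, w ≠ v := Finset.exists_mem_ne (by omega) v
      have h2 : μ v + κ v + (μ w + κ w) ≤ ∑ x ∈ V, (μ x + κ x) := by
        have h3 : ∑ x ∈ ({v, w} : Finset ℂ), (μ x + κ x) ≤ ∑ x ∈ V, (μ x + κ x) :=
          Finset.sum_le_sum_of_subset_of_nonneg (by
            intro x hx
            rw [Finset.mem_insert, Finset.mem_singleton] at hx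
            rcases hx with rfl | rfl <;> assumption) (fun _ _ _ => Nat.zero_le _)
        rwa [Finset.sum_pair hwv.symm] at h3
      rw [Finset.sum_add_distrib] at h2
      have h4 := h1 w hw
      omega
    have hc : ∀ v ∈ V, 2 + P.c₂ * (μ v : ℝ) ≤ P.A * ((ν v : ℝ) - P.D * (μ v : ℝ)) := by
      intro v hv
      obtain ⟨X', h2, h3⟩ := hch v hv
      exact ih _ (hlt v hv) X' (μ v) (ν v) (κ v) rfl h2 h3
    have hs := Finset.sum_le_sum hc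
    rw [Finset.sum_add_distrib, Finset.sum_const, ← Finset.mul_sum, ← Finset.mul_sum, Finset.sum_sub_distrib, ← Finset.mul_sum] at hs
    have hμ' : ∑ v ∈ V, (μ v : ℝ) = m := by
      rw [← hμ]
      push_cast
      rfl
    have hν' : ∑ v ∈ V, (ν v : ℝ) ≤ N := by
      have : ((∑ v ∈ V, ν v : ℕ) : ℝ) ≤ N := by exact_mod_cast hν
      push_cast at this
      exact this
    rw [hμ', nsmul_eq_mul] at hs
    have hcard : (2 : ℝ) ≤ (V.card : ℝ) := by exact_mod_cast hV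
    have h5 : P.A * (∑ v ∈ V, (ν v : ℝ) - P.D * m) ≤ P.A * ((N : ℝ) - P.D * m) :=
      mul_le_mul_of_nonneg_left (by linarith) hP.A_pos.le
    linarith
  · exact htop X m N k c r τ h hz hne

end Pool.Agent.SRE
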