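import Pool.Agent.SRE.EZoomD
import Pool.Agent.H17.Montel

/-!
# SRE EZoom: the choice of the centres and radii (`exists_zoom`)
-/

set_option autoImplicit false
set_option linter.unusedVariables false

open Topology Filter Metric

namespace Pool.Agent.SRE

variable {E : Type} [NormedAddCommGroup E] [NormedSpace ℂ E] {𝒰 : Ultrafilter ℕ} {P : Par} {ℓ : E →L[ℂ] ℂ} {X : ℕ → Dat E} {m N k : ℕ}

/-- Montel's theorem on an open set, along an ultrafilter -/
private theorem EZoom_montel {f : ℕ → ℂ → ℂ} {Ω : Set ℂ} {B : ℝ} (hΩ : IsOpen Ω)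
    (h : ∀ z₀ ∈ Ω, ∃ ρ : ℝ, 0 < ρ ∧ ∀ᶠ n in (𝒰 : Filter ℕ), DifferentiableOn ℂ (f n) (ball z₀ ρ) ∧ ∀ z ∈ ball z₀ ρ, ‖f n z‖ ≤ B) :
    ∃ g : ℂ → ℂ, DifferentiableOn ℂ g Ω ∧ TendstoLocallyUniformlyOn f g 𝒰 Ω := by
  have hlim : ∀ z, ∃ l : ℂ, z ∈ Ω → Tendsto (fun k => f k z) (𝒰 : Filter ℕ) (𝓝 l) := by
    intro z
    by_cases hz : z ∈ Ω
    · obtain ⟨ρ, hρ, h1⟩ := h z hz
      obtain ⟨g, -, hg⟩ := Pool.Agent.H17.montel_ultrafilter 𝒰 (h1.mono fun n hn => hn.1) (h1.mono fun n hn => hn.2)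
      exact ⟨g z, fun _ => hg.tendsto_at (mem_ball_self hρ)⟩
    · exact ⟨0, fun h => absurd h hz⟩
  choose g hg using hlim
  have key : ∀ z₀ ∈ Ω, ∃ ρ : ℝ, 0 < ρ ∧ DifferentiableOn ℂ g (ball z₀ ρ) ∧ TendstoLocallyUniformlyOn f g 𝒰 (ball z₀ ρ) := by
    intro z₀ hz₀
    obtain ⟨ρ, hρ, h1⟩ := h z₀ hz₀
    obtain ⟨ρ', hρ', h2⟩ := Metric.isOpen_iff.1 hΩ z₀ hz₀
    have hs1 : ball z₀ (min ρ ρ') ⊆ ball z₀ ρ := ball_subset_ball (min_le_left _ _)
    have hs2 : ball z₀ (min ρ ρ') ⊆ Ω := (ball_subset_ball (min_le_right _ _)).trans h2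
    obtain ⟨g', hg1, hg2⟩ := Pool.Agent.H17.montel_ultrafilter 𝒰 (h1.mono fun n hn => hn.1.mono hs1)
      (h1.mono fun n hn z hz => hn.2 z (hs1 hz))
    have he : Set.EqOn g' g (ball z₀ (min ρ ρ')) := by
      intro z hz
      exact tendsto_nhds_unique (hg2.tendsto_at hz) (hg z (hs2 hz))
    exact ⟨min ρ ρ', lt_min hρ hρ', hg1.congr fun z hz => (he hz).symm, hg2.congr_right he⟩
  refine ⟨g, ?_, ?_⟩
  · intro z hz
    obtain ⟨ρ, hρ, h1, -⟩ := key z hz
    exact (h1.differentiableAt (ball_mem_nhds z hρ)).differentiableWithinAt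
  · intro u hu z hz
    obtain ⟨ρ, hρ, -, h2⟩ := key z hz
    obtain ⟨t, ht1, ht2⟩ := h2 u hu z (mem_ball_self hρ)
    rw [isOpen_ball.nhdsWithin_eq (mem_ball_self hρ)] at ht1
    exact ⟨t, mem_nhdsWithin_of_mem_nhds ht1, ht2⟩

/-- convergence of circle averages -/
private theorem EZoom_avg {f : ℕ → ℂ → ℂ} {g : ℂ → ℂ} {Ω : Set ℂ} (hΩ : IsOpen Ω) (hfg : TendstoLocallyUniformlyOn f g 𝒰 Ω)
    (hg : ContinuousOn g Ω) {c₀ : ℂ} {R : ℝ} (hR : 0 < R) (hs : sphere c₀ R ⊆ Ω) {c : ℕ → ℂ} (hc : Tendsto c 𝒰 (𝓝 c₀))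
    (hf : ∀ K : Set ℂ, IsCompact K → K ⊆ Ω → ∀ᶠ n in (𝒰 : Filter ℕ), ContinuousOn (f n) K) :
    Tendsto (fun n => Real.circleAverage (f n) (c n) R) 𝒰 (𝓝 (Real.circleAverage g c₀ R)) := by
  have hcomp : IsCompact (sphere c₀ R) := isCompact_sphere c₀ R
  obtain ⟨δ, hδ, hδs⟩ := hcomp.exists_cthickening_subset_open hΩ hs
  set K : Set ℂ := cthickening δ (sphere c₀ R) with hK
  have hKc : IsCompact K := hcomp.cthickening
  have hunif : TendstoUniformlyOn f g 𝒰 K := (tendstoLocallyUniformlyOn_iff_forall_isCompact hΩ).1 hfg K hδs hKc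
  have hgu : UniformContinuousOn g K := hKc.uniformContinuousOn_of_continuous (hg.mono hδs)
  rw [Metric.tendsto_nhds]
  intro ε hε
  rw [Metric.tendstoUniformlyOn_iff] at hunif
  rw [Metric.uniformContinuousOn_iff] at hgu
  obtain ⟨δ', hδ', hgu'⟩ := hgu (ε / 4) (by linarith)
  filter_upwards [hunif (ε / 4) (by linarith), hf K hKc hδs, Metric.tendsto_nhds.1 hc (min δ δ') (lt_min hδ hδ')] with n h1 h2 h3
  have hmem : ∀ θ : ℝ, circleMap (c n) R θ ∈ K := by
    intro θ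
    refine mem_cthickening_of_dist_le _ (circleMap c₀ R θ) _ _ (circleMap_mem_sphere _ hR.le _) ?_
    have : dist (circleMap (c n) R θ) (circleMap c₀ R θ) = dist (c n) c₀ := by
      simp [circleMap, dist_eq_norm]
    rw [this]
    exact (h3.le).trans (min_le_left _ _)
  have hmem0 : ∀ θ : ℝ, circleMap c₀ R θ ∈ K := fun θ => self_subset_cthickening _ (circleMap_mem_sphere _ hR.le _)
  have hcont1 : Continuous fun θ : ℝ => f n (circleMap (c n) R θ) := by
    rw [← continuousOn_univ]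
    exact h2.comp (continuous_circleMap _ _).continuousOn fun θ _ => hmem θ
  have hcont2 : Continuous fun θ : ℝ => g (circleMap c₀ R θ) := by
    rw [← continuousOn_univ]
    exact (hg.mono hδs).comp (continuous_circleMap _ _).continuousOn fun θ _ => hmem0 θ
  have hb : ∀ θ : ℝ, ‖f n (circleMap (c n) R θ) - g (circleMap c₀ R θ)‖ ≤ ε / 2 := by
    intro θ
    have h4 := h1 _ (hmem θ)
    have h5 := hgu' _ (hmem θ) _ (hmem0 θ) (by
      have : dist (circleMap (c n) R θ) (circleMap c₀ R θ) = dist (c n) c₀ := by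
        simp [circleMap, dist_eq_norm]
      rw [this]
      exact h3.trans_le (min_le_right _ _))
    rw [dist_comm, dist_eq_norm] at h4
    rw [dist_eq_norm] at h5
    calc ‖f n (circleMap (c n) R θ) - g (circleMap c₀ R θ)‖ =
        ‖(f n (circleMap (c n) R θ) - g (circleMap (c n) R θ)) + (g (circleMap (c n) R θ) - g (circleMap c₀ R θ))‖ := by ring_nf
      _ ≤ _ := norm_add_le _ _
      _ ≤ ε / 2 := by linarith
  rw [dist_eq_norm, Real.circleAverage_def, Real.circleAverage_def, ← smul_sub,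
    ← intervalIntegral.integral_sub (hcont1.intervalIntegrable _ _) (hcont2.intervalIntegrable _ _), norm_smul]
  have h6 := intervalIntegral.norm_integral_le_of_norm_le_const (a := 0) (b := 2 * Real.pi) (fun θ _ => hb θ)
  have hpi : 0 < 2 * Real.pi := by positivity
  rw [sub_zero, abs_of_pos hpi] at h6
  rw [norm_inv, Real.norm_of_nonneg hpi.le]
  calc (2 * Real.pi)⁻¹ * _ ≤ (2 * Real.pi)⁻¹ * (ε / 2 * (2 * Real.pi)) := by gcongr
    _ = ε / 2 := by field_simp
    _ < ε := by linarith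

/-- the constant coefficient of the limit at infinity is the value of the limit at `0` -/
private theorem EZoom_const {f : ℕ → ℂ → ℂ} {S σ : ℂ → ℂ} {c : ℕ → ℂ} {r : ℕ → ℝ} (hr0 : ∀ n, 0 < r n) (hr : Tendsto r 𝒰 (𝓝 0))
    (hc : Tendsto c 𝒰 (𝓝 0)) (hd : ∀ᶠ n in (𝒰 : Filter ℕ), ∀ z, r n < ‖z - c n‖ → ‖z‖ < 1 / 2 → DifferentiableAt ℂ (f n) z)
    (hS : DifferentiableOn ℂ S (ball 0 1)) (hS0 : S 0 = 0) (hfS : TendstoLocallyUniformlyOn f S 𝒰 (ball 0 1 \ {0}))
    (hσ : DifferentiableOn ℂ σ {u | 1 < ‖u‖})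
    (hfσ : TendstoLocallyUniformlyOn (fun n u => f n (c n + r n * u)) σ 𝒰 {u | 1 < ‖u‖}) :
    Real.circleAverage σ 0 2 = 0 := by
  have hopen1 : IsOpen (ball (0 : ℂ) 1 \ {0}) := isOpen_ball.sdiff isClosed_singleton
  have hopen2 : IsOpen {u : ℂ | 1 < ‖u‖} := isOpen_lt continuous_const continuous_norm
  -- the outer circle
  have h1 : Tendsto (fun n => Real.circleAverage (f n) (c n) (1 / 4)) 𝒰 (𝓝 (Real.circleAverage S 0 (1 / 4))) := by
    refine EZoom_avg (Ω := ball (0 : ℂ) (1 / 2) \ {0}) (isOpen_ball.sdiff isClosed_singleton) ?_ ?_ (by norm_num) ?_ hc ?_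
    · refine hfS.mono fun z hz => ⟨?_, hz.2⟩
      exact ball_subset_ball (by norm_num) hz.1
    · refine hS.continuousOn.mono fun z hz => ?_
      exact ball_subset_ball (by norm_num) hz.1
    · intro z hz
      rw [mem_sphere_iff_norm, sub_zero] at hz
      refine ⟨?_, ?_⟩
      · rw [mem_ball_zero_iff, hz]
        norm_num
      · rintro rfl
        rw [norm_zero] at hz
        norm_num at hz
    · intro K hK hKs
      rcases K.eq_empty_or_nonempty with hKe | hKn
      · exact Eventually.of_forall fun n => by rw [hKe]; exact continuousOn_empty _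
      · obtain ⟨z₁, hz₁, hmin⟩ := hK.exists_isMinOn hKn continuous_norm.continuousOn
        have hpos : 0 < ‖z₁‖ := norm_pos_iff.2 fun h => (hKs hz₁).2 h
        have h2 : Tendsto (fun n => r n + ‖c n‖) 𝒰 (𝓝 0) := by
          have := hr.add (hc.norm)
          simpa using this
        filter_upwards [hd, h2.eventually (gt_mem_nhds hpos)] with n h3 h4
        intro z hz
        refine (h3 z ?_ ?_).continuousAt.continuousWithinAt
        · have h5 : ‖z₁‖ ≤ ‖z‖ := hmin hz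
          have h6 : ‖z‖ ≤ ‖z - c n‖ + ‖c n‖ := by
            calc ‖z‖ = ‖(z - c n) + c n‖ := by rw [sub_add_cancel]
              _ ≤ _ := norm_add_le _ _
          linarith
        · exact mem_ball_zero_iff.1 (hKs hz).1
  have h2 : Real.circleAverage S 0 (1 / 4) = 0 := by
    rw [circleAverage_of_differentiable_on_off_countable (s := ∅) Set.countable_empty, hS0]
    · refine hS.continuousOn.mono fun z hz => ?_
      rw [abs_of_pos (by norm_num), mem_closedBall_zero_iff] at hz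
      rw [mem_ball_zero_iff]
      linarith
    · intro z hz
      refine hS.differentiableAt (isOpen_ball.mem_nhds ?_)
      have h3 := hz.1
      rw [abs_of_pos (by norm_num), mem_ball_zero_iff] at h3
      rw [mem_ball_zero_iff]
      linarith
  -- the inner circle
  have h3 : Tendsto (fun n => Real.circleAverage (fun u => f n (c n + r n * u)) 0 2) 𝒰 (𝓝 (Real.circleAverage σ 0 2)) := by
    refine EZoom_avg (c := fun _ => 0) hopen2 hfσ hσ.continuousOn (by norm_num) ?_ tendsto_const_nhds ?_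
    · intro z hz
      rw [mem_sphere_iff_norm, sub_zero] at hz
      show 1 < ‖z‖
      rw [hz]
      norm_num
    · intro K hK hKs
      obtain ⟨B, hB⟩ := hK.isBounded.exists_norm_le
      have h4 : Tendsto (fun n => ‖c n‖ + r n * (|B| + 1)) 𝒰 (𝓝 0) := by
        have := (hc.norm).add (hr.mul_const (|B| + 1))
        simpa using this
      filter_upwards [hd, h4.eventually (gt_mem_nhds (show (0 : ℝ) < 1 / 2 by norm_num))] with n h5 h6
      intro u hu
      have hu1 : 1 < ‖u‖ := hKs hu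
      have hu2 : ‖u‖ ≤ |B| + 1 := (hB u hu).trans ((le_abs_self B).trans (by linarith))
      have hru : ‖(r n : ℂ) * u‖ = r n * ‖u‖ := by
        rw [norm_mul, Complex.norm_real, Real.norm_of_nonneg (hr0 n).le]
      have h7 : DifferentiableAt ℂ (f n) (c n + r n * u) := by
        refine h5 _ ?_ ?_
        · rw [add_sub_cancel_left, hru]
          nlinarith [hr0 n]
        · refine lt_of_le_of_lt (norm_add_le _ _) ?_
          rw [hru]
          have := mul_le_mul_of_nonneg_left hu2 (hr0 n).le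
          linarith
      have h8 : ContinuousAt (fun u : ℂ => f n (c n + r n * u)) u :=
        ContinuousAt.comp (f := fun u : ℂ => c n + r n * u) h7.continuousAt (by fun_prop)
      exact h8.continuousWithinAt
  -- the averages are equal
  have h4 : Tendsto (fun n => ‖c n‖ + 2 * r n) 𝒰 (𝓝 0) := by
    have := (hc.norm).add (hr.const_mul 2)
    simpa using this
  have h5 : (fun n => Real.circleAverage (f n) (c n) (1 / 4)) =ᶠ[(𝒰 : Filter ℕ)] fun n => Real.circleAverage (fun u => f n (c n + r n * u)) 0 2 := by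
    filter_upwards [hd, h4.eventually (gt_mem_nhds (show (0 : ℝ) < 1 / 4 by norm_num))] with n h6 h7
    have hc4 : ‖c n‖ < 1 / 4 := by linarith [hr0 n]
    have h8 : Real.circleAverage (fun u => f n (c n + r n * u)) 0 2 = Real.circleAverage (f n) (c n) (2 * r n) := by
      rw [Real.circleAverage_def, Real.circleAverage_def]
      congr 2
      ext θ
      congr 1
      simp only [circleMap]
      push_cast
      ring
    rw [h8, Real.circleAverage_eq_circleIntegral (by norm_num), Real.circleAverage_eq_circleIntegral (by linarith [hr0 n])]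
    congr 1
    have hdiff : ∀ z ∈ closedBall (c n) (1 / 4) \ ball (c n) (2 * r n), DifferentiableAt ℂ (f n) z := by
      intro z hz
      have h9 := hz.1
      have h10 := hz.2
      rw [mem_closedBall, dist_eq_norm] at h9
      rw [mem_ball, dist_eq_norm, not_lt] at h10
      refine h6 z (by linarith [hr0 n]) ?_
      calc ‖z‖ = ‖(z - c n) + c n‖ := by rw [sub_add_cancel]
        _ ≤ ‖z - c n‖ + ‖c n‖ := norm_add_le _ _
        _ < 1 / 2 := by linarith
    refine Complex.circleIntegral_sub_center_inv_smul_eq_of_differentiable_on_annulus_off_countable (s := ∅) (by linarith [hr0 n])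
      (by linarith [norm_nonneg (c n)]) Set.countable_empty ?_ ?_
    · intro z hz
      exact (hdiff z hz).continuousAt.continuousWithinAt
    · intro z hz
      exact hdiff z ⟨ball_subset_closedBall hz.1.1, fun h => hz.1.2 (ball_subset_closedBall h)⟩
  rw [h2] at h1
  exact tendsto_nhds_unique h3 (h1.congr' h5)

/-- MODULE EZoom: the choice of the centres and radii. -/
theorem exists_zoom (hP : P.Ok) (h𝒰 : (𝒰 : Filter ℕ) ≤ atTop) (h : Clu 𝒰 P ℓ X m N k) (he : Exits 𝒰 X 0) :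
    ∃ c r τ, Zoom 𝒰 P X c r τ := by
  classical
  -- the set of the exit points
  set Z : ℕ → Set ℂ := fun n => closedBall (0 : ℂ) (1 / 2) \ (X n).O with hZ
  have hZc : ∀ n, IsCompact (Z n) := fun n => (isCompact_closedBall 0 (1 / 2)).diff (h.ok n).O_open
  have hZn : ∀ᶠ n in (𝒰 : Filter ℕ), (Z n).Nonempty := by
    filter_upwards [he (1 / 2) (by norm_num)] with n hn
    obtain ⟨z, hz1, hz2⟩ := hn
    exact ⟨z, ball_subset_closedBall hz1, hz2⟩
  have hZs : ∀ ε : ℝ, 0 < ε → ∀ᶠ n in (𝒰 : Filter ℕ), ∀ z ∈ Z n, ‖z‖ < ε := by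
    intro ε hε
    have h1 : IsCompact (closedBall (0 : ℂ) (1 / 2) \ ball (0 : ℂ) ε) := (isCompact_closedBall 0 (1 / 2)).diff isOpen_ball
    filter_upwards [h.neck _ h1 (by
      intro z hz
      refine ⟨?_, ?_⟩
      · have := hz.1
        rw [mem_closedBall_zero_iff] at this
        rw [mem_ball_zero_iff]
        linarith
      · rintro rfl
        exact hz.2 (mem_ball_self hε))] with n hn
    intro z hz
    by_contra hcon
    exact hz.2 (hn ⟨hz.1, fun h => hcon (mem_ball_zero_iff.1 h)⟩)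
  -- centres and radii
  have hex : ∀ n, ∃ p : ℂ × ℂ, (Z n).Nonempty → p.1 ∈ Z n ∧ p.2 ∈ Z n ∧ ∀ z ∈ Z n, ‖z - p.1‖ ≤ ‖p.2 - p.1‖ := by
    intro n
    by_cases h1 : (Z n).Nonempty
    · obtain ⟨c, hc⟩ := h1
      obtain ⟨z', hz', hmax⟩ := (hZc n).exists_isMaxOn ⟨c, hc⟩ (f := fun z => ‖z - c‖) (by fun_prop)
      exact ⟨(c, z'), fun _ => ⟨hc, hz', fun z hz => hmax hz⟩⟩
    · exact ⟨0, fun h => absurd h h1⟩
  choose p hp using hex
  set c : ℕ → ℂ := fun n => if (Z n).Nonempty then (p n).1 else 0 with hc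
  set r : ℕ → ℝ := fun n => if 0 < ‖(p n).2 - (p n).1‖ then ‖(p n).2 - (p n).1‖ else 1 with hr
  have hcl : Tendsto c 𝒰 (𝓝 0) := by
    rw [Metric.tendsto_nhds]
    intro ε hε
    filter_upwards [hZn, hZs ε hε] with n h1 h2
    rw [dist_zero_right, hc]
    simp only [if_pos h1]
    exact h2 _ (hp n h1).1
  have hpos : ∀ᶠ n in (𝒰 : Filter ℕ), 0 < ‖(p n).2 - (p n).1‖ := by
    filter_upwards [hZn, hZs (1 / 2) (by norm_num)] with n h1 h2
    obtain ⟨h3, h4, h5⟩ := hp n h1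
    by_contra hcon
    have h6 : ‖(p n).2 - (p n).1‖ = 0 := le_antisymm (not_lt.1 hcon) (norm_nonneg _)
    have h7 : ∀ z ∈ Z n, z = (p n).1 := by
      intro z hz
      have := h5 z hz
      rw [h6] at this
      exact sub_eq_zero.1 (norm_le_zero_iff.1 this)
    refine h3.2 ((h.ok n).O_iso _ ?_)
    have h8 : ∀ᶠ w in 𝓝 (p n).1, w ∈ closedBall (0 : ℂ) (1 / 2) := by
      have h9 : ‖(p n).1‖ < 1 / 2 := h2 _ h3
      filter_upwards [isOpen_ball.mem_nhds (mem_ball_zero_iff.2 h9)] with w hw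
      exact ball_subset_closedBall hw
    filter_upwards [nhdsWithin_le_nhds h8, self_mem_nhdsWithin] with w hw1 hw2
    by_contra hw3
    exact hw2 (h7 w ⟨hw1, hw3⟩)
  have hr0 : ∀ n, 0 < r n := by
    intro n
    simp only [hr]
    split_ifs with h1
    · exact h1
    · exact one_pos
  have hrl : Tendsto r 𝒰 (𝓝 0) := by
    rw [Metric.tendsto_nhds]
    intro ε hε
    filter_upwards [hZn, hZs (ε / 2) (by linarith), hpos] with n h1 h2 h3
    have h4 : r n = ‖(p n).2 - (p n).1‖ := by simp only [hr, if_pos h3]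
    rw [dist_zero_right, Real.norm_of_nonneg (hr0 n).le, h4]
    have h5 := h2 _ (hp n h1).1
    have h6 := h2 _ (hp n h1).2.1
    linarith [norm_sub_le (p n).2 (p n).1]
  have hout0 : ∀ᶠ n in (𝒰 : Filter ℕ), ∀ z, ‖z‖ ≤ 1 / 2 → z ∉ (X n).O → ‖z - c n‖ ≤ r n := by
    filter_upwards [hZn, hpos] with n h1 h2
    intro z hz1 hz2
    have h3 := (hp n h1).2.2 z ⟨mem_closedBall_zero_iff.2 hz1, hz2⟩
    simp only [hr, hc, if_pos h1, if_pos h2]
    exact h3
  have hnorm : ∀ n (u : ℂ), ‖(r n : ℂ) * u‖ = r n * ‖u‖ := by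
    intro n u
    rw [norm_mul, Complex.norm_real, Real.norm_of_nonneg (hr0 n).le]
  have hout : ∀ K : Set ℂ, IsCompact K → (∀ u ∈ K, 1 < ‖u‖) → ∀ᶠ n in (𝒰 : Filter ℕ), ∀ u ∈ K, c n + r n * u ∈ (X n).O := by
    intro K hK hK1
    obtain ⟨B, hB⟩ := hK.isBounded.exists_norm_le
    have h4 : Tendsto (fun n => ‖c n‖ + r n * (|B| + 1)) 𝒰 (𝓝 0) := by
      have := (hcl.norm).add (hrl.mul_const (|B| + 1))
      simpa using this
    filter_upwards [hout0, h4.eventually (gt_mem_nhds (show (0 : ℝ) < 1 / 2 by norm_num))] with n h5 h6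
    intro u hu
    have hu1 : 1 < ‖u‖ := hK1 u hu
    have hu2 : ‖u‖ ≤ |B| + 1 := (hB u hu).trans ((le_abs_self B).trans (by linarith))
    by_contra hcon
    have h7 := h5 (c n + r n * u) (by
      refine (norm_add_le _ _).trans ?_
      rw [hnorm]
      have := mul_le_mul_of_nonneg_left hu2 (hr0 n).le
      linarith) hcon
    rw [add_sub_cancel_left, hnorm] at h7
    nlinarith [hr0 n]
  have hopen2 : IsOpen {u : ℂ | 1 < ‖u‖} := isOpen_lt continuous_const continuous_norm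
  -- differentiability of `s` and `t` in the box
  have hsd : ∀ n, ∀ z ∈ (X n).O, DifferentiableAt ℂ ((X n).s P.D) z := by
    intro n z hz
    have h1 := (h.ok n).O_W z hz
    have h2 : DifferentiableAt ℂ (fun z => (X n).η * (X n).a z / (X n).W z ^ P.D) z := by
      refine DifferentiableAt.div ?_ ?_ (pow_ne_zero _ h1)
      · exact ((h.ok n).a_diff z).const_mul _
      · exact ((h.ok n).W_diff z).pow _
    exact h2
  have htd : ∀ n, ∀ z ∈ (X n).O, DifferentiableAt ℂ (X n).t z := fun n z hz =>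
    (h.ok n).t_diff.differentiableAt ((h.ok n).O_open.mem_nhds hz)
  -- Montel
  have hmont : ∀ f : ℕ → ℂ → ℂ, (∀ n, ∀ z ∈ (X n).O, DifferentiableAt ℂ (f n) z) → (∀ n, ∀ z ∈ (X n).O, ‖f n z‖ ≤ P.δ) →
      ∃ g : ℂ → ℂ, DifferentiableOn ℂ g {u : ℂ | 1 < ‖u‖} ∧
        TendstoLocallyUniformlyOn (fun n u => f n (c n + r n * u)) g 𝒰 {u : ℂ | 1 < ‖u‖} := by
    intro f hf1 hf2
    refine EZoom_montel (B := P.δ) hopen2 fun z₀ hz₀ => ?_
    obtain ⟨ρ, hρ, hρ1⟩ := Metric.isOpen_iff.1 hopen2 z₀ hz₀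
    have hs : closedBall z₀ (ρ / 2) ⊆ {u : ℂ | 1 < ‖u‖} := (closedBall_subset_ball (by linarith)).trans hρ1
    refine ⟨ρ / 2, by linarith, ?_⟩
    filter_upwards [hout _ (isCompact_closedBall z₀ (ρ / 2)) (fun u hu => hs hu)] with n hn
    refine ⟨fun u hu => ?_, fun u hu => hf2 n _ (hn u (ball_subset_closedBall hu))⟩
    have h1 := hf1 n _ (hn u (ball_subset_closedBall hu))
    exact (DifferentiableAt.comp (f := fun u : ℂ => c n + r n * u) u h1 (by fun_prop)).differentiableWithinAt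
  obtain ⟨σ, hσd, hσ⟩ := hmont (fun n => (X n).s P.D) hsd (fun n => (h.ok n).O_s)
  obtain ⟨τ, hτd, hτ⟩ := hmont (fun n => (X n).t) htd (fun n => (h.ok n).O_t)
  have hann : ∀ᶠ n in (𝒰 : Filter ℕ), ∀ z, r n < ‖z - c n‖ → ‖z‖ < 1 / 2 → z ∈ (X n).O := by
    filter_upwards [hout0] with n hn
    intro z hz1 hz2
    by_contra hcon
    exact absurd (hn z hz2.le hcon) (not_le.2 hz1)
  obtain ⟨S, hS1, hS2, hS3⟩ := h.s_lim
  obtain ⟨T, hT1, hT2, hT3⟩ := h.t_lim
  have hσ0 : Real.circleAverage σ 0 2 = 0 := EZoom_const hr0 hrl hcl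
    (hann.mono fun n hn z h1 h2 => hsd n z (hn z h1 h2)) hS1 hS2 hS3 hσd hσ
  have hτ0 : Real.circleAverage τ 0 2 = 0 := EZoom_const hr0 hrl hcl
    (hann.mono fun n hn z h1 h2 => htd n z (hn z h1 h2)) hT1 hT2 hT3 hτd hτ
  have hcst : ∀ g : ℂ → ℂ, ∀ g₀ : ℂ, (∀ u : ℂ, 1 < ‖u‖ → g u = g₀) → Real.circleAverage g 0 2 = 0 → g₀ = 0 := by
    intro g g₀ h1 h2
    rw [Real.circleAverage_congr_sphere (f₂ := fun _ => g₀) (by
      intro u hu
      rw [mem_sphere_iff_norm, sub_zero, abs_of_pos (by norm_num)] at hu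
      exact h1 u (by rw [hu]; norm_num)), Real.circleAverage_const] at h2
    exact h2
  have halt : (∀ u : ℂ, 1 < ‖u‖ → σ u = 0) ∧ ((∀ u : ℂ, 1 < ‖u‖ → τ u = 0) ∨ ¬ ∃ τ₀ : ℂ, ∀ u : ℂ, 1 < ‖u‖ → τ u = τ₀) := by
    rcases h.null c r σ τ hr0 hrl hcl hout hσ hτ with h1 | ⟨σ₀, τ₀, h1⟩
    · refine ⟨h1, ?_⟩
      by_cases h2 : ∃ τ₀ : ℂ, ∀ u : ℂ, 1 < ‖u‖ → τ u = τ₀
      · obtain ⟨τ₀, h3⟩ := h2
        have h4 := hcst τ τ₀ h3 hτ0
        left
        intro u hu
        rw [h3 u hu, h4]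
      · exact Or.inr h2
    · have h2 := hcst σ σ₀ (fun u hu => (h1 u hu).1) hσ0
      have h3 := hcst τ τ₀ (fun u hu => (h1 u hu).2) hτ0
      exact ⟨fun u hu => by rw [(h1 u hu).1, h2], Or.inl fun u hu => by rw [(h1 u hu).2, h3]⟩
  refine ⟨c, r, τ, ⟨hr0, hrl, hcl, hout, ?_, ?_, ⟨1 / 2, by norm_num, ?_⟩, ?_, hτ, halt.2⟩⟩
  · filter_upwards [hZn] with n h1
    simp only [hc, if_pos h1]
    exact (hp n h1).1.2
  · filter_upwards [hZn, hpos] with n h1 h2
    refine ⟨((r n : ℂ))⁻¹ * ((p n).2 - c n), ?_, ?_⟩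
    · have h3 : r n = ‖(p n).2 - c n‖ := by simp only [hr, hc, if_pos h1, if_pos h2]
      rw [norm_mul, norm_inv, Complex.norm_real, Real.norm_of_nonneg (hr0 n).le, ← h3, inv_mul_cancel₀ (hr0 n).ne']
    · rw [mul_inv_cancel_left₀ (Complex.ofReal_ne_zero.2 (hr0 n).ne'), add_sub_cancel]
      exact (hp n h1).2.1.2
  · filter_upwards [hout0] with n hn
    intro z hz1 hz2
    exact hn z (mem_ball_zero_iff.1 hz1).le hz2
  · exact hσ.congr_right fun u hu => halt.1 u hu

end Pool.Agent.SRE
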