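import Pool.Agent.SRE.EDefs

/-!
# SRE EZoomD: the structure produced by the module `EZoom`
-/

set_option autoImplicit false

open Topology Filter Metric

namespace Pool.Agent.SRE

variable {E : Type} [NormedAddCommGroup E] [NormedSpace ℂ E]

/-- What the module `EZoom` produces: centres `c n`, radii `r n`, and the limit `τ` of `t` outside the unit disc. -/
structure Zoom (𝒰 : Ultrafilter ℕ) (P : Par) (X : ℕ → Dat E) (c : ℕ → ℂ) (r : ℕ → ℝ) (τ : ℂ → ℂ) : Prop where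
  r_pos : ∀ n, 0 < r n
  r_lim : Tendsto r 𝒰 (𝓝 0)
  c_lim : Tendsto c 𝒰 (𝓝 0)
  out : ∀ K : Set ℂ, IsCompact K → (∀ u ∈ K, 1 < ‖u‖) → ∀ᶠ n in (𝒰 : Filter ℕ), ∀ u ∈ K, c n + r n * u ∈ (X n).O
  zero : ∀ᶠ n in (𝒰 : Filter ℕ), c n ∉ (X n).O
  one : ∀ᶠ n in (𝒰 : Filter ℕ), ∃ u : ℂ, ‖u‖ = 1 ∧ c n + r n * u ∉ (X n).O
  roots : ∃ ρ : ℝ, 0 < ρ ∧ ∀ᶠ n in (𝒰 : Filter ℕ), ∀ z ∈ ball (0 : ℂ) ρ, z ∉ (X n).O → ‖z - c n‖ ≤ r n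
  s_lim : TendstoLocallyUniformlyOn (fun n u => (X n).s P.D (c n + r n * u)) (fun _ => 0) 𝒰 {u | 1 < ‖u‖}
  t_lim : TendstoLocallyUniformlyOn (fun n u => (X n).t (c n + r n * u)) τ 𝒰 {u | 1 < ‖u‖}
  alt : (∀ u : ℂ, 1 < ‖u‖ → τ u = 0) ∨ ¬ ∃ τ₀ : ℂ, ∀ u : ℂ, 1 < ‖u‖ → τ u = τ₀

end Pool.Agent.SRE
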