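import Pool.Agent.H17.Montel

/-!
# SRE Root: the zeros of a convergent sequence of holomorphic functions

`zero_seq`: if `f n → z ^ (N + 1) α` locally uniformly on the disc of radius `r` (along an ultrafilter) and `α` has no zero, then `f n` has a zero `b n`
with `b n → 0`.  `factor`: `f n = ∏ (z - β i n) * V n` with `β i n → 0` and `V n → α`, `V n` without zeros.
-/

set_option autoImplicit false

open Topology Filter Metric

namespace Pool.Agent.SRE

variable {𝒰 : Ultrafilter ℕ}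

/-- a lower bound for the values of a limit without zeros -/
theorem eventually_lower {K : Set ℂ} (hK : IsCompact K) {f : ℕ → ℂ → ℂ} {g : ℂ → ℂ} {l : Filter ℕ} (hg : ContinuousOn g K)
    (hc : TendstoUniformlyOn f g l K) (h0 : ∀ z ∈ K, g z ≠ 0) : ∃ c : ℝ, 0 < c ∧ ∀ᶠ n in l, ∀ z ∈ K, c ≤ ‖f n z‖ := by
  rcases K.eq_empty_or_nonempty with rfl | hne
  · exact ⟨1, one_pos, Eventually.of_forall fun n z hz => absurd hz (Set.notMem_empty z)⟩
  obtain ⟨z₀, hz₀, hmin⟩ := hK.exists_isMinOn hne hg.norm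
  have hpos : 0 < ‖g z₀‖ := norm_pos_iff.2 (h0 z₀ hz₀)
  refine ⟨‖g z₀‖ / 2, by positivity, ?_⟩
  filter_upwards [Metric.tendstoUniformlyOn_iff.1 hc (‖g z₀‖ / 2) (by positivity)] with n hn z hz
  have h1 : ‖g z₀‖ ≤ ‖g z‖ := hmin hz
  have h2 := hn z hz
  rw [dist_eq_norm] at h2
  have h3 : ‖g z‖ ≤ ‖g z - f n z‖ + ‖f n z‖ := by
    have := norm_add_le (g z - f n z) (f n z)
    rwa [sub_add_cancel] at this
  linarith

theorem uniform_closedBall {f : ℕ → ℂ → ℂ} {g : ℂ → ℂ} {l : Filter ℕ} {r s : ℝ} (hc : TendstoLocallyUniformlyOn f g l (ball 0 r)) (hs : s < r) :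
    TendstoUniformlyOn f g l (closedBall 0 s) :=
  (tendstoLocallyUniformlyOn_iff_forall_isCompact isOpen_ball).1 hc _ (closedBall_subset_ball hs) (isCompact_closedBall _ _)

/-- Hurwitz: a zero near the zero of the limit -/
theorem exists_zero {f : ℕ → ℂ → ℂ} {α : ℂ → ℂ} {r : ℝ} {N : ℕ} (hN : N ≠ 0)
    (hf : ∀ᶠ n in (𝒰 : Filter ℕ), DifferentiableOn ℂ (f n) (ball 0 r)) (hα : DifferentiableOn ℂ α (ball 0 r)) (h0 : ∀ z ∈ ball (0 : ℂ) r, α z ≠ 0)
    (hc : TendstoLocallyUniformlyOn f (fun z => z ^ N * α z) 𝒰 (ball 0 r)) {ε : ℝ} (hε : 0 < ε) (hεr : ε < r) :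
    ∀ᶠ n in (𝒰 : Filter ℕ), ∃ z ∈ ball (0 : ℂ) ε, f n z = 0 := by
  set s : ℝ := ε / 2 with hs
  have hs0 : 0 < s := by positivity
  have hsr : s < r := by linarith
  have hsub : sphere (0 : ℂ) s ⊆ ball 0 r := sphere_subset_closedBall.trans (closedBall_subset_ball hsr)
  have hlim : ContinuousOn (fun z => z ^ N * α z) (sphere 0 s) :=
    (continuous_pow N).continuousOn.mul (hα.continuousOn.mono hsub)
  obtain ⟨c, hc0, hlow⟩ := eventually_lower (isCompact_sphere (0 : ℂ) s) hlim ((uniform_closedBall hc hsr).mono sphere_subset_closedBall)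
    (fun z hz => mul_ne_zero (pow_ne_zero _ (fun h => by
      rw [h, mem_sphere_iff_norm, sub_zero, norm_zero] at hz
      exact hs0.ne hz)) (h0 z (hsub hz)))
  have h00 : (0 : ℂ) ∈ ball (0 : ℂ) r := mem_ball_self (by linarith)
  have hz0 : Tendsto (fun n => f n 0) 𝒰 (𝓝 0) := by
    have h1 := hc.tendsto_at h00
    simpa [zero_pow hN] using h1
  have hsmall : ∀ᶠ n in (𝒰 : Filter ℕ), ‖f n 0‖ < c := by
    have h1 := hz0.norm
    rw [norm_zero] at h1
    exact h1.eventually (gt_mem_nhds hc0)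
  filter_upwards [hf, hlow, hsmall] with n h1 h2 h3
  by_contra hcon
  push Not at hcon
  have hne : ∀ z ∈ closedBall (0 : ℂ) s, f n z ≠ 0 := fun z hz => hcon z (closedBall_subset_ball (by linarith) hz)
  have hd : DiffContOnCl ℂ (fun z => (f n z)⁻¹) (ball (0 : ℂ) s) := by
    refine DifferentiableOn.diffContOnCl ?_
    rw [closure_ball _ hs0.ne']
    exact (h1.mono (closedBall_subset_ball hsr)).inv hne
  have h4 := Complex.norm_le_of_forall_mem_frontier_norm_le (C := c⁻¹) isBounded_ball hd (fun z hz => by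
    rw [frontier_ball _ hs0.ne'] at hz
    rw [norm_inv]
    exact inv_anti₀ hc0 (h2 z hz)) (subset_closure (mem_ball_self hs0))
  rw [norm_inv] at h4
  have h5 : 0 < ‖f n 0‖ := norm_pos_iff.2 (hne 0 (mem_closedBall_self hs0.le))
  have h6 : c ≤ ‖f n 0‖ := (inv_le_inv₀ h5 hc0).1 h4
  linarith

/-- a sequence of zeros -/
theorem zero_seq {f : ℕ → ℂ → ℂ} {α : ℂ → ℂ} {r : ℝ} (hr : 0 < r) {N : ℕ} (hN : N ≠ 0)
    (hf : ∀ᶠ n in (𝒰 : Filter ℕ), DifferentiableOn ℂ (f n) (ball 0 r)) (hα : DifferentiableOn ℂ α (ball 0 r)) (h0 : ∀ z ∈ ball (0 : ℂ) r, α z ≠ 0)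
    (hc : TendstoLocallyUniformlyOn f (fun z => z ^ N * α z) 𝒰 (ball 0 r)) :
    ∃ b : ℕ → ℂ, Tendsto b 𝒰 (𝓝 0) ∧ ∀ᶠ n in (𝒰 : Filter ℕ), f n (b n) = 0 := by
  classical
  set s : ℝ := r / 2 with hs
  have hs0 : 0 < s := by positivity
  have hsr : s < r := by linarith
  have hmin : ∀ n, ∃ b : ℂ, DifferentiableOn ℂ (f n) (ball 0 r) → (∃ z ∈ closedBall (0 : ℂ) s, f n z = 0) →
      (f n b = 0 ∧ ∀ z ∈ closedBall (0 : ℂ) s, f n z = 0 → ‖b‖ ≤ ‖z‖) := by
    intro n
    by_cases h : DifferentiableOn ℂ (f n) (ball 0 r) ∧ ∃ z ∈ closedBall (0 : ℂ) s, f n z = 0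
    · obtain ⟨h1, z₁, hz₁, h2⟩ := h
      have hcl : IsClosed {z | z ∈ closedBall (0 : ℂ) s ∧ f n z = 0} := by
        have h3 : ContinuousOn (f n) (closedBall 0 s) := h1.continuousOn.mono (closedBall_subset_ball hsr)
        have h4 := h3.preimage_isClosed_of_isClosed isClosed_closedBall (isClosed_singleton (x := (0 : ℂ)))
        exact h4
      have hK : IsCompact {z | z ∈ closedBall (0 : ℂ) s ∧ f n z = 0} :=
        (isCompact_closedBall (0 : ℂ) s).of_isClosed_subset hcl fun z hz => hz.1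
      obtain ⟨b, hb, hbm⟩ := hK.exists_isMinOn ⟨z₁, hz₁, h2⟩ continuous_norm.continuousOn
      exact ⟨b, fun _ _ => ⟨hb.2, fun z hz1 hz2 => hbm ⟨hz1, hz2⟩⟩⟩
    · exact ⟨0, fun h1 h2 => absurd ⟨h1, h2⟩ h⟩
  choose b hb using hmin
  have hev : ∀ ε : ℝ, 0 < ε → ∀ᶠ n in (𝒰 : Filter ℕ), f n (b n) = 0 ∧ ‖b n‖ < ε := by
    intro ε hε
    have hε' : 0 < min ε s := lt_min hε hs0
    filter_upwards [hf, exists_zero hN hf hα h0 hc hε' ((min_le_right _ _).trans_lt hsr)] with n h1 h2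
    obtain ⟨z, hz, hz0⟩ := h2
    have hzs : z ∈ closedBall (0 : ℂ) s := ball_subset_closedBall (ball_subset_ball (min_le_right _ _) hz)
    obtain ⟨h3, h4⟩ := hb n h1 ⟨z, hzs, hz0⟩
    refine ⟨h3, (h4 z hzs hz0).trans_lt ?_⟩
    have h5 : ‖z‖ < min ε s := by simpa using hz
    exact h5.trans_le (min_le_left _ _)
  refine ⟨b, ?_, (hev 1 one_pos).mono fun n hn => hn.1⟩
  rw [Metric.tendsto_nhds]
  intro ε hε
  filter_upwards [hev ε hε] with n hn
  rw [dist_zero_right]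
  exact hn.2

/-- division by a zero -/
theorem divide {f : ℕ → ℂ → ℂ} {α : ℂ → ℂ} {r s : ℝ} (hs0 : 0 < s) (hsr : s < r) {N : ℕ}
    (hf : ∀ᶠ n in (𝒰 : Filter ℕ), DifferentiableOn ℂ (f n) (ball 0 r)) (hα : DifferentiableOn ℂ α (ball 0 r))
    (hc : TendstoLocallyUniformlyOn f (fun z => z ^ (N + 1) * α z) 𝒰 (ball 0 r)) {b : ℕ → ℂ} (hb : Tendsto b 𝒰 (𝓝 0))
    (hz : ∀ᶠ n in (𝒰 : Filter ℕ), f n (b n) = 0) :
    (∀ᶠ n in (𝒰 : Filter ℕ), DifferentiableOn ℂ (dslope (f n) (b n)) (ball 0 r) ∧ ∀ z, f n z = (z - b n) * dslope (f n) (b n) z) ∧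
      TendstoLocallyUniformlyOn (fun n => dslope (f n) (b n)) (fun z => z ^ N * α z) 𝒰 (ball 0 s) := by
  have hr0 : 0 < r := hs0.trans hsr
  have hbs : ∀ᶠ n in (𝒰 : Filter ℕ), ‖b n‖ < s / 2 := by
    have h1 := hb.norm
    rw [norm_zero] at h1
    exact h1.eventually (gt_mem_nhds (by positivity))
  have hA : ∀ᶠ n in (𝒰 : Filter ℕ), DifferentiableOn ℂ (dslope (f n) (b n)) (ball 0 r) ∧ ∀ z, f n z = (z - b n) * dslope (f n) (b n) z := by
    filter_upwards [hf, hz, hbs] with n h1 h2 h3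
    have hbn : ball (0 : ℂ) r ∈ 𝓝 (b n) := isOpen_ball.mem_nhds (by
      rw [mem_ball_zero_iff]
      linarith)
    refine ⟨(Complex.differentiableOn_dslope hbn).2 h1, fun z => ?_⟩
    have h4 := sub_smul_dslope (f n) (b n) z
    rw [h2, sub_zero, smul_eq_mul] at h4
    exact h4.symm
  refine ⟨hA, ?_⟩
  -- a bound
  have hlimc : ContinuousOn (fun z => z ^ (N + 1) * α z) (closedBall 0 s) :=
    (continuous_pow (N + 1)).continuousOn.mul (hα.continuousOn.mono (closedBall_subset_ball hsr))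
  obtain ⟨B, hB⟩ := (isCompact_closedBall (0 : ℂ) s).exists_bound_of_continuousOn hlimc
  have hbd : ∀ᶠ n in (𝒰 : Filter ℕ), ∀ z ∈ ball (0 : ℂ) s, ‖dslope (f n) (b n) z‖ ≤ (B + 1) / (s / 2) := by
    filter_upwards [hA, hbs, Metric.tendstoUniformlyOn_iff.1 (uniform_closedBall hc hsr) 1 one_pos] with n h1 h2 h3 z hz
    have hd : DiffContOnCl ℂ (dslope (f n) (b n)) (ball (0 : ℂ) s) := by
      refine DifferentiableOn.diffContOnCl ?_
      rw [closure_ball _ hs0.ne']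
      exact h1.1.mono (closedBall_subset_ball hsr)
    refine Complex.norm_le_of_forall_mem_frontier_norm_le isBounded_ball hd (fun w hw => ?_) (subset_closure hz)
    rw [frontier_ball _ hs0.ne'] at hw
    have hwn : ‖w‖ = s := by simpa using hw
    have h4 : s / 2 ≤ ‖w - b n‖ := by
      have := norm_sub_norm_le w (b n)
      linarith
    have h5 : ‖f n w‖ ≤ B + 1 := by
      have h6 := h3 w (sphere_subset_closedBall hw)
      rw [dist_eq_norm] at h6
      have h7 := hB w (sphere_subset_closedBall hw)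
      have h8 : ‖f n w‖ ≤ ‖w ^ (N + 1) * α w‖ + ‖w ^ (N + 1) * α w - f n w‖ := by
        have := norm_sub_le (w ^ (N + 1) * α w) (w ^ (N + 1) * α w - f n w)
        rwa [sub_sub_cancel] at this
      linarith
    rw [h1.2 w, norm_mul] at h5
    rw [le_div_iff₀ (by positivity)]
    have h9 : ‖dslope (f n) (b n) w‖ * (s / 2) ≤ ‖dslope (f n) (b n) w‖ * ‖w - b n‖ :=
      mul_le_mul_of_nonneg_left h4 (norm_nonneg _)
    linarith [mul_comm ‖w - b n‖ ‖dslope (f n) (b n) w‖]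
  obtain ⟨h, hhd, hhc⟩ := Pool.Agent.H17.montel_ultrafilter 𝒰 (F := fun n => dslope (f n) (b n)) (a := 0) (r := s)
    (hA.mono fun n hn => hn.1.mono (ball_subset_ball hsr.le)) hbd
  -- the limit
  have hne : ∀ z ∈ ball (0 : ℂ) s, z ≠ 0 → h z = z ^ N * α z := by
    intro z hz hz0
    have h1 : Tendsto (fun n => (z - b n) * dslope (f n) (b n) z) 𝒰 (𝓝 ((z - 0) * h z)) :=
      (tendsto_const_nhds.sub hb).mul (hhc.tendsto_at hz)
    have h2 : Tendsto (fun n => f n z) 𝒰 (𝓝 (z ^ (N + 1) * α z)) := hc.tendsto_at (ball_subset_ball hsr.le hz)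
    have h3 : (fun n => (z - b n) * dslope (f n) (b n) z) =ᶠ[(𝒰 : Filter ℕ)] fun n => f n z := by
      filter_upwards [hA] with n hn
      exact (hn.2 z).symm
    have h4 := tendsto_nhds_unique_of_eventuallyEq h1 h2 h3
    rw [sub_zero, pow_succ'] at h4
    have h5 : z * h z = z * (z ^ N * α z) := by rw [h4]; ring
    exact mul_left_cancel₀ hz0 h5
  have hall : Set.EqOn h (fun z => z ^ N * α z) (ball 0 s) := by
    intro z hz
    by_cases hz0 : z = 0
    · subst hz0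
      have hc1 : ContinuousAt h 0 := (hhd.continuousOn).continuousAt (isOpen_ball.mem_nhds hz)
      have hc2 : ContinuousAt (fun z => z ^ N * α z) 0 :=
        (continuous_pow N).continuousAt.mul ((hα.continuousOn).continuousAt (isOpen_ball.mem_nhds (mem_ball_self hr0)))
      refine tendsto_nhds_unique_of_eventuallyEq (hc1.tendsto.mono_left nhdsWithin_le_nhds) (hc2.tendsto.mono_left nhdsWithin_le_nhds) (l := 𝓝[≠] 0) ?_
      filter_upwards [self_mem_nhdsWithin, nhdsWithin_le_nhds (isOpen_ball.mem_nhds hz)] with w hw1 hw2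
      exact hne w hw2 hw1
    · exact hne z hz hz0
  exact hhc.congr_right hall

/-- **the zeros of a convergent sequence** -/
theorem factor : ∀ (N : ℕ) {f : ℕ → ℂ → ℂ} {α : ℂ → ℂ} {r s : ℝ}, 0 < s → s < r →
    (∀ᶠ n in (𝒰 : Filter ℕ), DifferentiableOn ℂ (f n) (ball 0 r)) → DifferentiableOn ℂ α (ball 0 r) → (∀ z ∈ ball (0 : ℂ) r, α z ≠ 0) →
    TendstoLocallyUniformlyOn f (fun z => z ^ N * α z) 𝒰 (ball 0 r) →
    ∃ (β : Fin N → ℕ → ℂ) (V : ℕ → ℂ → ℂ), (∀ i, Tendsto (β i) 𝒰 (𝓝 0)) ∧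
      (∀ᶠ n in (𝒰 : Filter ℕ), DifferentiableOn ℂ (V n) (ball 0 s) ∧ (∀ z ∈ ball (0 : ℂ) s, V n z ≠ 0) ∧
        ∀ z, f n z = (∏ i, (z - β i n)) * V n z) ∧ TendstoLocallyUniformlyOn V α 𝒰 (ball 0 s)
  | 0, f, α, r, s, hs0, hsr, hf, hα, h0, hc => by
    have hc' : TendstoLocallyUniformlyOn f α 𝒰 (ball 0 r) := by
      refine hc.congr_right fun z _ => ?_
      simp
    obtain ⟨c, hc0, hlow⟩ := eventually_lower (isCompact_closedBall (0 : ℂ) s) (hα.continuousOn.mono (closedBall_subset_ball hsr))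
      (uniform_closedBall hc' hsr) (fun z hz => h0 z (closedBall_subset_ball hsr hz))
    refine ⟨fun i => i.elim0, f, fun i => i.elim0, ?_, hc'.mono (ball_subset_ball hsr.le)⟩
    filter_upwards [hf, hlow] with n h1 h2
    refine ⟨h1.mono (ball_subset_ball hsr.le), fun z hz h3 => ?_, fun z => by simp⟩
    have h4 := h2 z (ball_subset_closedBall hz)
    rw [h3, norm_zero] at h4
    linarith
  | N + 1, f, α, r, s, hs0, hsr, hf, hα, h0, hc => by
    have hr0 : 0 < r := hs0.trans hsr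
    obtain ⟨b, hb, hbz⟩ := zero_seq hr0 (Nat.succ_ne_zero N) hf hα h0 hc
    set t : ℝ := (s + r) / 2 with ht
    have hst : s < t := by linarith
    have htr : t < r := by linarith
    obtain ⟨hA, hlim⟩ := divide (hs0.trans hst) htr hf hα hc hb hbz
    obtain ⟨β, V, hβ, hV, hVc⟩ := factor N hs0 hst (hA.mono fun n hn => hn.1.mono (ball_subset_ball htr.le))
      (hα.mono (ball_subset_ball htr.le)) (fun z hz => h0 z (ball_subset_ball htr.le hz)) hlim
    refine ⟨Fin.cons b β, V, fun i => ?_, ?_, hVc⟩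
    · refine Fin.cases ?_ (fun j => ?_) i
      · simpa using hb
      · simpa using hβ j
    · filter_upwards [hA, hV] with n h1 h2
      refine ⟨h2.1, h2.2.1, fun z => ?_⟩
      rw [h1.2 z, h2.2.2 z, Fin.prod_univ_succ]
      simp only [Fin.cons_zero, Fin.cons_succ]
      ring

end Pool.Agent.SRE
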