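import Pool.Agent.H36.BP.SubB
import Pool.Agent.H36.BP.MaxP

/-!
# SRE Top: the maximum principle on a large disc

`max_sub`: the maximum principle for a function whose logarithm has Laplacian at least a small negative number.
`top_ineq`: a sequence `U n` of such functions on larger and larger discs, comparable near infinity to `|s|^A |t'| |w|^(-c₂)`, where `s = η (σ + o(1))`,
`w = ν (ω + o(1))`, `t → τ`; comparison of the values at a point `u₁` and on a circle of radius `R → ∞` gives an inequality for the orders of `σ` and `ω` at infinity.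
-/

set_option autoImplicit false

open Topology Filter Metric

namespace Pool.Agent.SRE

open Pool.Agent.H36.BP (Sub max_principle)

/-- the maximum principle with a small negative exponent -/
theorem max_sub {U : ℂ → ℝ} {R K c c' : ℝ} (hK : 0 ≤ K) (hc' : 0 ≤ c') (hcc : c < c')
    (hu : UpperSemicontinuousOn U (closedBall 0 R)) (hs : ∀ z ∈ ball (0 : ℂ) R, 0 < U z → Sub U z (-c))
    (hb : ∀ z ∈ sphere (0 : ℂ) R, U z ≤ K) : ∀ z ∈ closedBall (0 : ℂ) R, U z ≤ K * Real.exp (c' * R ^ 2) := by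
  have husc : UpperSemicontinuousOn (fun z => U z * Real.exp (c' * ‖z‖ ^ 2)) (closedBall 0 R) := by
    intro x hx y hy
    set h : ℂ → ℝ := fun z => Real.exp (c' * ‖z‖ ^ 2) with hh
    have hx0 : 0 < h x := Real.exp_pos _
    have h1 : U x < y / h x := (lt_div_iff₀ hx0).2 hy
    obtain ⟨a, ha1, ha2⟩ := exists_between h1
    have h2 : a * h x < y := (lt_div_iff₀ hx0).1 ha2
    have hc : Continuous h := by
      rw [hh]
      fun_prop
    have h3 : ∀ᶠ z in 𝓝[closedBall 0 R] x, a * h z < y :=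
      (continuousWithinAt_const.mul hc.continuousWithinAt).tendsto.eventually (gt_mem_nhds h2)
    filter_upwards [hu x hx a ha1, h3] with z hz1 hz2
    exact (mul_lt_mul_of_pos_right hz1 (Real.exp_pos _)).trans hz2
  have key := max_principle (isCompact_closedBall (0 : ℂ) R) isOpen_ball ball_subset_closedBall husc
    (A := K * Real.exp (c' * R ^ 2)) (fun z hz hz0 => ?_) (by positivity) (fun z hz => ?_)
  · intro p hp
    rcases le_or_gt (U p) 0 with h0 | h0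
    · exact h0.trans (by positivity)
    · refine le_trans ?_ (key p hp)
      refine le_mul_of_one_le_right h0.le (Real.one_le_exp (by positivity))
  · have hm0 : 0 < U z := by
      by_contra h3
      exact absurd hz0 (not_lt.2 (mul_nonpos_of_nonpos_of_nonneg (not_lt.1 h3) (Real.exp_pos _).le))
    have hs1 := hs z hz hm0
    have hs2 : Sub (fun w => Real.exp (c' * ‖w‖ ^ 2)) z (c' * ‖deriv (fun w : ℂ => w) z‖ ^ 2) :=
      Pool.Agent.H36.BP.Sub.exp_sq analyticAt_id _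
    have h3 : deriv (fun w : ℂ => w) z = 1 := deriv_id z
    rw [h3, norm_one, one_pow, mul_one] at hs2
    exact ⟨-c + c', by linarith, hs1.mul hs2⟩
  · have hz1 : z ∈ sphere (0 : ℂ) R := by
      rw [← closedBall_sdiff_ball]
      exact hz
    have hzn : ‖z‖ = R := by simpa using hz1
    show U z * Real.exp (c' * ‖z‖ ^ 2) ≤ _
    rw [hzn]
    exact mul_le_mul_of_nonneg_right (hb z hz1) (Real.exp_pos _).le

/-- an annulus about the origin -/
def ann (r R : ℝ) : Set ℂ := {u | r < ‖u‖ ∧ ‖u‖ < R}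

theorem isOpen_ann (r R : ℝ) : IsOpen (ann r R) :=
  (isOpen_lt continuous_const continuous_norm).inter (isOpen_lt continuous_norm continuous_const)

theorem isOpen_ext (r : ℝ) : IsOpen {u : ℂ | r < ‖u‖} := isOpen_lt continuous_const continuous_norm

theorem ann_subset (r R : ℝ) : ann r R ⊆ {u : ℂ | r < ‖u‖} := fun _ h => h.1

/-- the derivatives converge on spheres -/
theorem deriv_sphere {l : Filter ℕ} [l.NeBot] {f : ℕ → ℂ → ℂ} {g : ℂ → ℂ} {R₀ R : ℝ} (hR : R₀ < R)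
    (hf : ∀ R, R₀ < R → ∀ᶠ n in l, DifferentiableOn ℂ (f n) (ann R₀ R)) (hc : TendstoLocallyUniformlyOn f g l {u | R₀ < ‖u‖}) {ε : ℝ} (hε : 0 < ε) :
    ∀ᶠ n in l, ∀ u ∈ sphere (0 : ℂ) R, ‖deriv (f n) u - deriv g u‖ ≤ ε := by
  have h1 : TendstoLocallyUniformlyOn (deriv ∘ f) (deriv g) l (ann R₀ (R + 1)) :=
    (hc.mono (ann_subset _ _)).deriv (hf (R + 1) (by linarith)) (isOpen_ann _ _)
  have hsub : sphere (0 : ℂ) R ⊆ ann R₀ (R + 1) := by
    intro u hu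
    have h2 : ‖u‖ = R := by simpa using hu
    exact ⟨by rw [h2]; exact hR, by rw [h2]; linarith⟩
  have h2 := (tendstoLocallyUniformlyOn_iff_forall_isCompact (isOpen_ann _ _)).1 h1 _ hsub (isCompact_sphere 0 R)
  filter_upwards [Metric.tendstoUniformlyOn_iff.1 h2 ε hε] with n hn u hu
  have h3 := hn u hu
  rw [dist_comm, dist_eq_norm] at h3
  exact h3.le

theorem value_sphere {l : Filter ℕ} {f : ℕ → ℂ → ℂ} {g : ℂ → ℂ} {R₀ R : ℝ} (hR : R₀ < R)
    (hc : TendstoLocallyUniformlyOn f g l {u | R₀ < ‖u‖}) {ε : ℝ} (hε : 0 < ε) :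
    ∀ᶠ n in l, ∀ u ∈ sphere (0 : ℂ) R, ‖f n u - g u‖ ≤ ε := by
  have hsub : sphere (0 : ℂ) R ⊆ {u : ℂ | R₀ < ‖u‖} := by
    intro u hu
    have h2 : ‖u‖ = R := by simpa using hu
    show R₀ < ‖u‖
    rw [h2]
    exact hR
  have h2 := (tendstoLocallyUniformlyOn_iff_forall_isCompact (isOpen_ext _)).1 hc _ hsub (isCompact_sphere 0 R)
  filter_upwards [Metric.tendstoUniformlyOn_iff.1 h2 ε hε] with n hn u hu
  have h3 := hn u hu
  rw [dist_comm, dist_eq_norm] at h3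
  exact h3.le

/-- **comparison of a point and of a large circle** -/
theorem top_ineq {l : Filter ℕ} [l.NeBot] {U : ℕ → ℂ → ℝ} {cn : ℕ → ℝ} {s t w : ℕ → ℂ → ℂ} {σ τ ω : ℂ → ℂ} {η ν : ℕ → ℂ}
    {R₀ A B c₂ c C p m K k R₁ : ℝ} (hR₀ : 0 ≤ R₀) (hA : 0 < A) (hAB : A < B + 1) (hc₂ : 0 ≤ c₂) (hc : 0 < c) (hC : 0 ≤ C) (hK : 0 < K) (hk : 0 < k)
    (hcn : Tendsto cn l (𝓝 0)) (hη : Tendsto η l (𝓝 0)) (hη0 : ∀ᶠ n in l, η n ≠ 0) (hν0 : ∀ᶠ n in l, ν n ≠ 0)
    (hU : ∀ R, R₀ < R → ∀ᶠ n in l, UpperSemicontinuousOn (U n) (closedBall 0 R) ∧ ∀ z ∈ ball (0 : ℂ) R, 0 < U n z → Sub (U n) z (-(cn n)))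
    (hsd : ∀ R, R₀ < R → ∀ᶠ n in l, DifferentiableOn ℂ (s n) (ann R₀ R)) (htd : ∀ R, R₀ < R → ∀ᶠ n in l, DifferentiableOn ℂ (t n) (ann R₀ R))
    (hbd : ∀ R, R₀ < R → ∀ᶠ n in l, ∀ u ∈ ann R₀ R, c * (‖s n u‖ ^ A * ‖deriv (t n) u‖) * ‖w n u‖ ^ (-c₂) ≤ U n u ∧
      U n u ≤ C * (‖s n u‖ ^ A * ‖deriv (t n) u‖ + ‖s n u‖ ^ B * ‖deriv (s n) u‖) * ‖w n u‖ ^ (-c₂))
    (hs : TendstoLocallyUniformlyOn (fun n u => s n u / η n) σ l {u | R₀ < ‖u‖}) (ht : TendstoLocallyUniformlyOn t τ l {u | R₀ < ‖u‖})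
    (hw : TendstoLocallyUniformlyOn (fun n u => w n u / ν n) ω l {u | R₀ < ‖u‖})
    (hσ0 : ∀ u : ℂ, R₀ < ‖u‖ → σ u ≠ 0) (hσ : ∀ u : ℂ, R₁ < ‖u‖ → ‖σ u‖ ≤ K * ‖u‖ ^ p) (hτ : ∀ u : ℂ, R₁ < ‖u‖ → ‖deriv τ u‖ ≤ K * ‖u‖ ^ (-2 : ℝ))
    (hω : ∀ u : ℂ, R₁ < ‖u‖ → k * ‖u‖ ^ m ≤ ‖ω u‖) {u₁ : ℂ} (hu₁ : R₀ < ‖u₁‖) (h2 : deriv τ u₁ ≠ 0) (h3 : ω u₁ ≠ 0) :
    2 + c₂ * m ≤ A * p := by
  have hu₁0 : 0 < ‖u₁‖ := hR₀.trans_lt hu₁
  have h1 : σ u₁ ≠ 0 := hσ0 u₁ hu₁
  -- the value at `u₁`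
  set L₁ : ℝ := c * ((‖σ u₁‖ / 2) ^ A * (‖deriv τ u₁‖ / 2)) * (2 * ‖ω u₁‖) ^ (-c₂) with hL₁
  have hσ1 : 0 < ‖σ u₁‖ := norm_pos_iff.2 h1
  have hτ1 : 0 < ‖deriv τ u₁‖ := norm_pos_iff.2 h2
  have hω1 : 0 < ‖ω u₁‖ := norm_pos_iff.2 h3
  have hL₁0 : 0 < L₁ := by positivity
  have hsph : u₁ ∈ sphere (0 : ℂ) ‖u₁‖ := by simp
  have hlow : ∀ᶠ n in l, L₁ * (‖η n‖ ^ A * ‖ν n‖ ^ (-c₂)) ≤ U n u₁ := by
    filter_upwards [value_sphere hu₁ hs (half_pos hσ1), deriv_sphere hu₁ htd ht (half_pos hτ1), value_sphere hu₁ hw (half_pos hω1), hη0, hν0,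
      hbd (‖u₁‖ + 1) (by linarith)] with n e1 e2 e3 e4 e5 e6
    have f1 := e1 u₁ hsph
    have f2 := e2 u₁ hsph
    have f3 := e3 u₁ hsph
    have hηn : 0 < ‖η n‖ := norm_pos_iff.2 e4
    have hνn : 0 < ‖ν n‖ := norm_pos_iff.2 e5
    have g1 : ‖σ u₁‖ / 2 * ‖η n‖ ≤ ‖s n u₁‖ := by
      have := norm_sub_norm_le (σ u₁) (s n u₁ / η n)
      rw [← norm_neg (σ u₁ - s n u₁ / η n), neg_sub] at this
      rw [← le_div_iff₀ hηn, ← norm_div]
      linarith
    have g2 : ‖deriv τ u₁‖ / 2 ≤ ‖deriv (t n) u₁‖ := by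
      have := norm_sub_norm_le (deriv τ u₁) (deriv (t n) u₁)
      rw [← norm_neg (deriv τ u₁ - deriv (t n) u₁), neg_sub] at this
      linarith
    have g3 : ‖w n u₁‖ ≤ 2 * ‖ω u₁‖ * ‖ν n‖ := by
      have := norm_sub_norm_le (w n u₁ / ν n) (ω u₁)
      rw [← div_le_iff₀ hνn, ← norm_div]
      linarith
    have hw1 : 0 < ‖w n u₁‖ := by
      have := norm_sub_norm_le (ω u₁) (w n u₁ / ν n)
      rw [← norm_neg (ω u₁ - w n u₁ / ν n), neg_sub] at this
      have h5 : 0 < ‖w n u₁ / ν n‖ := by linarith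
      rw [norm_div] at h5
      by_contra h6
      have h7 : ‖w n u₁‖ = 0 := le_antisymm (not_lt.1 h6) (norm_nonneg _)
      rw [h7, zero_div] at h5
      exact absurd h5 (lt_irrefl 0)
    obtain ⟨g4, -⟩ := e6 u₁ ⟨hu₁, by linarith⟩
    refine le_trans ?_ g4
    have g5 : (2 * ‖ω u₁‖ * ‖ν n‖) ^ (-c₂) ≤ ‖w n u₁‖ ^ (-c₂) :=
      Real.rpow_le_rpow_of_nonpos hw1 g3 (by linarith)
    have g6 : (‖σ u₁‖ / 2 * ‖η n‖) ^ A ≤ ‖s n u₁‖ ^ A := Real.rpow_le_rpow (by positivity) g1 hA.le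
    calc L₁ * (‖η n‖ ^ A * ‖ν n‖ ^ (-c₂)) = c * ((‖σ u₁‖ / 2 * ‖η n‖) ^ A * (‖deriv τ u₁‖ / 2)) * (2 * ‖ω u₁‖ * ‖ν n‖) ^ (-c₂) := by
          rw [hL₁, Real.mul_rpow (by positivity) hηn.le, Real.mul_rpow (by positivity) hνn.le]
          ring
      _ ≤ c * (‖s n u₁‖ ^ A * ‖deriv (t n) u₁‖) * ‖w n u₁‖ ^ (-c₂) := by gcongr
  -- the values on a large circle
  set D : ℝ := 4 * C * K * (2 * K) ^ A * (k / 2) ^ (-c₂) * Real.exp 1 with hD
  have hD0 : 0 ≤ D := by positivity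
  have key : ∀ R : ℝ, max (max R₀ R₁) (max ‖u₁‖ 1) < R → L₁ ≤ D * R ^ (A * p - 2 - c₂ * m) := by
    intro R hRR
    obtain ⟨⟨hRR₀, hRR₁⟩, hRu, hR1⟩ : (R₀ < R ∧ R₁ < R) ∧ ‖u₁‖ < R ∧ 1 < R := by
      simpa only [max_lt_iff] using hRR
    have hRpos : 0 < R := by linarith
    set P : ℝ := K * R ^ p with hP
    have hP0 : 0 < P := by positivity
    have hQ0 : 0 < K * R ^ (-2 : ℝ) := by positivity
    have hW0 : 0 < k * R ^ m := by positivity
    have hσd : DifferentiableOn ℂ σ (ann R₀ (R + 1)) := by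
      refine (hs.mono (ann_subset R₀ (R + 1))).differentiableOn ?_ (isOpen_ann _ _)
      filter_upwards [hsd (R + 1) (by linarith)] with n hn
      exact hn.div_const _
    have hsubR : sphere (0 : ℂ) R ⊆ ann R₀ (R + 1) := by
      intro u hu
      have h2 : ‖u‖ = R := by simpa using hu
      exact ⟨by rw [h2]; exact hRR₀, by rw [h2]; linarith⟩
    obtain ⟨S, hS⟩ := (isCompact_sphere (0 : ℂ) R).exists_bound_of_continuousOn
      (((hσd.deriv (isOpen_ann _ _)).continuousOn).mono hsubR)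
    set S' : ℝ := |S| + 1 with hS'
    have hS'0 : 0 < S' := by positivity
    obtain ⟨V, hV⟩ := (isCompact_sphere (0 : ℂ) R).exists_bound_of_continuousOn (f := fun u => (σ u)⁻¹)
      ((hσd.continuousOn.inv₀ fun u hu => hσ0 u hu.1).mono hsubR)
    set V' : ℝ := |V| + 1 with hV'
    have hV'0 : 0 < V' := by positivity
    set Q : ℝ := (2 * P) ^ B + ((2 * V')⁻¹) ^ B with hQ
    have hQpos : 0 < Q := by positivity
    have hQ1 : ∀ x : ℝ, (2 * V')⁻¹ ≤ x → x ≤ 2 * P → x ^ B ≤ Q := by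
      intro x hx1 hx2
      have hx0 : 0 < x := lt_of_lt_of_le (by positivity) hx1
      have q1 : 0 ≤ (2 * P) ^ B := by positivity
      have q2 : 0 ≤ ((2 * V')⁻¹) ^ B := by positivity
      rcases le_total 0 B with hB | hB
      · have := Real.rpow_le_rpow hx0.le hx2 hB
        rw [hQ]
        linarith
      · have := Real.rpow_le_rpow_of_nonpos (by positivity) hx1 hB
        rw [hQ]
        linarith
    have hsmall : ∀ᶠ n in l, Q * S' * ‖η n‖ ^ (B + 1 - A) ≤ (2 * P) ^ A * (2 * (K * R ^ (-2 : ℝ))) := by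
      have e1 : Tendsto (fun n => Q * S' * ‖η n‖ ^ (B + 1 - A)) l (𝓝 (Q * S' * 0)) := by
        refine Tendsto.const_mul _ ?_
        have e2 : Tendsto (fun n => ‖η n‖) l (𝓝 0) := by
          simpa using hη.norm
        have e3 := e2.rpow_const (p := B + 1 - A) (Or.inr (by linarith))
        rwa [Real.zero_rpow (by linarith)] at e3
      rw [mul_zero] at e1
      exact e1.eventually_le_const (by positivity)
    have hup : ∀ᶠ n in l, ∀ u ∈ sphere (0 : ℂ) R, U n u ≤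
        (4 * C * K * (2 * K) ^ A * (k / 2) ^ (-c₂) * R ^ (A * p - 2 - c₂ * m)) * (‖η n‖ ^ A * ‖ν n‖ ^ (-c₂)) := by
      filter_upwards [value_sphere hRR₀ hs (lt_min hP0 (inv_pos.2 (mul_pos two_pos hV'0))), deriv_sphere hRR₀ htd ht hQ0,
        value_sphere hRR₀ hw (half_pos hW0),
        deriv_sphere (f := fun n u => s n u / η n) (g := σ) hRR₀ (fun R hR => (hsd R hR).mono fun n hn => hn.div_const _) hs one_pos, hη0, hν0,
        hbd (R + 1) (by linarith), hsmall] with n e1 e2 e3 e4 e5 e6 e7 e8 u hu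
      have hηn : 0 < ‖η n‖ := norm_pos_iff.2 e5
      have hνn : 0 < ‖ν n‖ := norm_pos_iff.2 e6
      have hun : ‖u‖ = R := by simpa using hu
      have f1 : ‖s n u‖ ≤ 2 * P * ‖η n‖ := by
        have a1 := (e1 u hu).trans (min_le_left _ _)
        have a2 := hσ u (by rw [hun]; exact hRR₁)
        rw [hun] at a2
        have a3 := norm_sub_norm_le (s n u / η n) (σ u)
        rw [← div_le_iff₀ hηn, ← norm_div]
        linarith
      have f1' : (2 * V')⁻¹ ≤ ‖s n u / η n‖ := by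
        have a1 := (e1 u hu).trans (min_le_right _ _)
        have a2 := hV u hu
        have a3 := norm_sub_norm_le (σ u) (s n u / η n)
        rw [← norm_neg (σ u - s n u / η n), neg_sub] at a3
        have a4 : 0 < ‖σ u‖ := norm_pos_iff.2 (hσ0 u (by rw [hun]; exact hRR₀))
        rw [norm_inv] at a2
        have a5 : ‖σ u‖⁻¹ ≤ V' := by
          have := le_abs_self V
          linarith
        have a6 : V'⁻¹ ≤ ‖σ u‖ := inv_le_of_inv_le₀ a4 a5
        have a7 : (2 * V')⁻¹ + (2 * V')⁻¹ = V'⁻¹ := by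
          field_simp
          norm_num
        linarith
      have f2 : ‖deriv (t n) u‖ ≤ 2 * (K * R ^ (-2 : ℝ)) := by
        have a1 := e2 u hu
        have a2 := hτ u (by rw [hun]; exact hRR₁)
        rw [hun] at a2
        have a3 := norm_sub_norm_le (deriv (t n) u) (deriv τ u)
        linarith
      have f3 : k * R ^ m / 2 * ‖ν n‖ ≤ ‖w n u‖ := by
        have a1 := e3 u hu
        have a2 := hω u (by rw [hun]; exact hRR₁)
        rw [hun] at a2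
        have a3 := norm_sub_norm_le (ω u) (w n u / ν n)
        rw [← norm_neg (ω u - w n u / ν n), neg_sub] at a3
        rw [← le_div_iff₀ hνn, ← norm_div]
        linarith
      have f4 : ‖deriv (s n) u‖ ≤ S' * ‖η n‖ := by
        have a1 := e4 u hu
        have a2 := hS u hu
        have a3 : deriv (fun u => s n u / η n) u = deriv (s n) u / η n := deriv_div_const _
        rw [a3] at a1
        have a4 := norm_sub_norm_le (deriv (s n) u / η n) (deriv σ u)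
        rw [← div_le_iff₀ hηn, ← norm_div]
        have a5 := le_abs_self S
        linarith
      obtain ⟨-, g⟩ := e7 u (hsubR hu)
      refine g.trans ?_
      have h6 : ‖w n u‖ ^ (-c₂) ≤ (k * R ^ m / 2 * ‖ν n‖) ^ (-c₂) :=
        Real.rpow_le_rpow_of_nonpos (by positivity) f3 (by linarith)
      have h7 : ‖s n u‖ ^ A ≤ (2 * P * ‖η n‖) ^ A := Real.rpow_le_rpow (norm_nonneg _) f1 hA.le
      have h8 : ‖s n u‖ ^ B ≤ Q * ‖η n‖ ^ B := by
        have b1 : ‖s n u‖ = ‖s n u / η n‖ * ‖η n‖ := by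
          rw [norm_div, div_mul_cancel₀ _ hηn.ne']
        rw [b1, Real.mul_rpow (norm_nonneg _) hηn.le]
        refine mul_le_mul_of_nonneg_right (hQ1 _ f1' ?_) (by positivity)
        rw [norm_div, div_le_iff₀ hηn]
        exact f1
      have h9 : ‖η n‖ ^ B * ‖η n‖ = ‖η n‖ ^ A * ‖η n‖ ^ (B + 1 - A) := by
        rw [← Real.rpow_add hηn, ← Real.rpow_add_one hηn.ne']
        congr 1
        ring
      have h10 : Q * ‖η n‖ ^ B * (S' * ‖η n‖) ≤ (2 * P) ^ A * (2 * (K * R ^ (-2 : ℝ))) * ‖η n‖ ^ A := by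
        calc Q * ‖η n‖ ^ B * (S' * ‖η n‖) = Q * S' * (‖η n‖ ^ B * ‖η n‖) := by ring
          _ = (Q * S' * ‖η n‖ ^ (B + 1 - A)) * ‖η n‖ ^ A := by rw [h9]; ring
          _ ≤ ((2 * P) ^ A * (2 * (K * R ^ (-2 : ℝ)))) * ‖η n‖ ^ A := by gcongr
      have h11 : (2 * P) ^ A = (2 * K) ^ A * R ^ (A * p) := by
        rw [hP, ← mul_assoc, Real.mul_rpow (by positivity) (by positivity), ← Real.rpow_mul hRpos.le, mul_comm p A]
      have h12 : (k * R ^ m / 2 * ‖ν n‖) ^ (-c₂) = (k / 2) ^ (-c₂) * R ^ (-(c₂ * m)) * ‖ν n‖ ^ (-c₂) := by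
        rw [show k * R ^ m / 2 * ‖ν n‖ = k / 2 * R ^ m * ‖ν n‖ by ring, Real.mul_rpow (by positivity) hνn.le,
          Real.mul_rpow (by positivity) (by positivity), ← Real.rpow_mul hRpos.le]
        congr 3
        ring
      have h13 : R ^ (A * p) * R ^ (-2 : ℝ) * R ^ (-(c₂ * m)) = R ^ (A * p - 2 - c₂ * m) := by
        rw [← Real.rpow_add hRpos, ← Real.rpow_add hRpos, sub_eq_add_neg, sub_eq_add_neg]
      calc C * (‖s n u‖ ^ A * ‖deriv (t n) u‖ + ‖s n u‖ ^ B * ‖deriv (s n) u‖) * ‖w n u‖ ^ (-c₂)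
          ≤ C * ((2 * P * ‖η n‖) ^ A * (2 * (K * R ^ (-2 : ℝ))) + Q * ‖η n‖ ^ B * (S' * ‖η n‖)) * (k * R ^ m / 2 * ‖ν n‖) ^ (-c₂) := by gcongr
        _ ≤ C * ((2 * P * ‖η n‖) ^ A * (2 * (K * R ^ (-2 : ℝ))) + (2 * P) ^ A * (2 * (K * R ^ (-2 : ℝ))) * ‖η n‖ ^ A) *
            (k * R ^ m / 2 * ‖ν n‖) ^ (-c₂) := by gcongr
        _ = (4 * C * K * (2 * K) ^ A * (k / 2) ^ (-c₂) * (R ^ (A * p) * R ^ (-2 : ℝ) * R ^ (-(c₂ * m)))) * (‖η n‖ ^ A * ‖ν n‖ ^ (-c₂)) := by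
            rw [Real.mul_rpow (by positivity) hηn.le, h11, h12]
            ring
        _ = _ := by rw [h13]
    have hcR : ∀ᶠ n in l, cn n < R⁻¹ ^ 2 := hcn.eventually (gt_mem_nhds (by positivity))
    obtain ⟨n, n1, n2, n3, n4, n5, n6⟩ := (hlow.and (hup.and (hcR.and ((hU R hRR₀).and (hη0.and hν0))))).exists
    have hηn : 0 < ‖η n‖ := norm_pos_iff.2 n5
    have hνn : 0 < ‖ν n‖ := norm_pos_iff.2 n6
    have hpos : 0 < ‖η n‖ ^ A * ‖ν n‖ ^ (-c₂) := by positivity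
    have h4 := max_sub (by positivity) (by positivity) n3 n4.1 n4.2 n2 u₁ (by
      rw [mem_closedBall_zero_iff]
      exact hRu.le)
    have h5 : R⁻¹ ^ 2 * R ^ 2 = 1 := by
      field_simp
    rw [h5] at h4
    have h6 := n1.trans h4
    have h7 : L₁ * (‖η n‖ ^ A * ‖ν n‖ ^ (-c₂)) ≤ (D * R ^ (A * p - 2 - c₂ * m)) * (‖η n‖ ^ A * ‖ν n‖ ^ (-c₂)) := by
      refine h6.trans (le_of_eq ?_)
      rw [hD]
      ring
    exact le_of_mul_le_mul_right h7 hpos
  by_contra hcon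
  push Not at hcon
  have hneg : A * p - 2 - c₂ * m < 0 := by linarith
  have hlim : Tendsto (fun R : ℝ => D * R ^ (A * p - 2 - c₂ * m)) atTop (𝓝 (D * 0)) := by
    refine Tendsto.const_mul D ?_
    have e1 := tendsto_rpow_neg_atTop (y := -(A * p - 2 - c₂ * m)) (by linarith)
    rwa [neg_neg] at e1
  rw [mul_zero] at hlim
  have h8 : L₁ ≤ 0 := ge_of_tendsto hlim (by
    filter_upwards [eventually_gt_atTop (max (max R₀ R₁) (max ‖u₁‖ 1))] with R hR
    exact key R hR)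
  linarith

end Pool.Agent.SRE
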